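import Pool.Agent.Helper72.PW.Upper

/-! Exponential growth along the levels. -/

namespace Pool.Agent.Helper72.PW

open Finset

variable {m g f f' : ℕ → ℕ}

lemma sq_card_le (S : Finset ℕ) (M : ℕ) (hS : ∀ a ∈ S, a < M) (R : ℝ)
    (hR : ∀ s, (((S ×ˢ S).filter fun p => p.1 + p.2 = s).card : ℝ) ≤ R) :
    (S.card : ℝ) ^ 2 ≤ 2 * M * R := by
  have h1 : (S ×ˢ S).card = ∑ s ∈ Finset.range (2 * M),
      ((S ×ˢ S).filter fun p => p.1 + p.2 = s).card := by
    refine Finset.card_eq_sum_card_fiberwise fun p hp => ?_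
    rw [Finset.mem_coe, Finset.mem_product] at hp
    rw [Finset.mem_coe, Finset.mem_range]
    have := hS _ hp.1
    have := hS _ hp.2
    omega
  rw [Finset.card_product] at h1
  have h2 : (S.card : ℝ) ^ 2 = ∑ s ∈ Finset.range (2 * M),
      (((S ×ˢ S).filter fun p => p.1 + p.2 = s).card : ℝ) := by
    rw [sq]
    exact_mod_cast h1
  rw [h2]
  refine (Finset.sum_le_sum fun s _ => hR s).trans (le_of_eq ?_)
  rw [Finset.sum_const, Finset.card_range, nsmul_eq_mul]
  push_cast
  ring

lemma prod_sqrt (h : Rad m g) (θ : ℝ) (J : ℕ) :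
    ∏ j : Fin J, (√(g j : ℝ) * θ) = √(m J : ℝ) * θ ^ J := by
  rw [Finset.prod_mul_distrib, Finset.prod_const, Finset.card_univ, Fintype.card_fin]
  congr 1
  rw [← Real.sqrt_prod _ fun j _ => Nat.cast_nonneg _]
  congr 1
  rw [← Nat.cast_prod]
  congr 1
  rw [← Finset.prod_range (f := fun j => g j)]
  induction J with
  | zero => rw [Finset.prod_range_zero, h.one]
  | succ J ih => rw [Finset.prod_range_succ, ih, h.succ, mul_comm]

lemma rr_sq (h : Rad m g) (hf : ∀ n, f n ≤ n) {w : ℝ} (hw : 0 ≤ w) (hw1 : w ≤ 1) (J : ℕ) (R : ℝ)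
    (hR0 : 0 ≤ R)
    (hR : ∀ s, ((((Finset.range (m J)).image f ×ˢ (Finset.range (m J)).image f).filter
      fun p => p.1 + p.2 = s).card : ℝ) ≤ R) (G : Fin J → Finset ℕ) :
    rr w m g f J G ^ 2 ≤ R * ∏ j : Fin J, EE w (g j) (G j) := by
  classical
  unfold rr
  refine class_sq h hw hw1 J G _ ?_ R hR0 ?_
  · intro a ha
    rw [Finset.mem_filter, Finset.mem_image] at ha
    obtain ⟨⟨n, hn, rfl⟩, _⟩ := ha
    exact (hf n).trans_lt (Finset.mem_range.1 hn)
  · intro s
    refine le_trans ?_ (hR s)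
    have : (((((Finset.range (m J)).image f).filter (fun a => TS m g f J a = G)) ×ˢ
        (((Finset.range (m J)).image f).filter (fun a => TS m g f J a = G))).filter
        fun p => p.1 + p.2 = s) ⊆
        (((Finset.range (m J)).image f ×ˢ (Finset.range (m J)).image f).filter
        fun p => p.1 + p.2 = s) := by
      refine Finset.filter_subset_filter _ ?_
      exact Finset.product_subset_product (Finset.filter_subset _ _) (Finset.filter_subset _ _)
    exact_mod_cast Finset.card_le_card this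

lemma rr_nonneg {w : ℝ} (hw : 0 ≤ w) (m g f : ℕ → ℕ) (J : ℕ) (G : Fin J → Finset ℕ) :
    0 ≤ rr w m g f J G :=
  Finset.sum_nonneg fun _ _ => wt_nonneg hw _ _ _

lemma rr_sum {w : ℝ} (hw : 0 ≤ w) (hw1 : w ≤ 1) (m g f : ℕ → ℕ) (J : ℕ) :
    ∑ G ∈ seqs g J, rr w m g f J G ≤ ((Finset.range (m J)).image f).card := by
  classical
  have h1 : ∑ G ∈ seqs g J, rr w m g f J G =
      ∑ a ∈ (Finset.range (m J)).image f, wt w m (TS m g f J a) a := by
    rw [← Finset.sum_fiberwise_of_maps_to (g := fun a => TS m g f J a)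
      (fun a _ => TS_mem m g f J a)]
    refine Finset.sum_congr rfl fun G _ => ?_
    unfold rr
    refine Finset.sum_congr (by congr) fun a ha => ?_
    rw [Finset.mem_filter] at ha
    rw [ha.2]
  rw [h1]
  refine (Finset.sum_le_sum fun a _ => wt_le_one hw hw1 _ _ _).trans (le_of_eq ?_)
  rw [Finset.sum_const, nsmul_eq_mul, mul_one]

/-- The number of representations grows exponentially with the number of levels. -/
theorem levels {Q : ℕ} (hQ2 : 2 ≤ Q) : ∃ c : ℝ, 0 < c ∧ ∀ (m g f f' : ℕ → ℕ), Rad m g →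
    (∀ j, g j ≤ Q) → Split m f f' → ∀ (J : ℕ) (R : ℝ), 1 ≤ R →
    (∀ s, ((((Finset.range (m J)).image f ×ˢ (Finset.range (m J)).image f).filter
      fun p => p.1 + p.2 = s).card : ℝ) ≤ R) →
    (∀ s, ((((Finset.range (m J)).image f' ×ˢ (Finset.range (m J)).image f').filter
      fun p => p.1 + p.2 = s).card : ℝ) ≤ R) →
    c * J ≤ Real.log (2 * R) := by
  have hQr : (2 : ℝ) ≤ Q := by exact_mod_cast hQ2
  have hQ0 : (0 : ℝ) < Q := by linarith
  set w : ℝ := 1 / (32 * (Q : ℝ) ^ 2 * 2 ^ Q) with hwdef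
  have hw : 0 < w := by rw [hwdef]; positivity
  have hwQ : w * (32 * (Q : ℝ) ^ 2) * 2 ^ Q ≤ 1 := by
    rw [hwdef]
    refine le_of_eq ?_
    field_simp
  have hw1 : w ≤ 1 := by
    rw [hwdef, div_le_one (by positivity)]
    have e1 : (1 : ℝ) ≤ 2 ^ Q := one_le_pow₀ (by norm_num)
    have e2 : (1 : ℝ) ≤ (Q : ℝ) ^ 2 := one_le_pow₀ (by linarith)
    nlinarith
  set θ : ℝ := 1 - 1 / (16 * (Q : ℝ) ^ 2) with hθ
  have hθ0 : 0 < θ := by
    have e2 : (1 : ℝ) ≤ (Q : ℝ) ^ 2 := one_le_pow₀ (by linarith)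
    have : 1 / (16 * (Q : ℝ) ^ 2) ≤ 1 / 16 := one_div_le_one_div_of_le (by norm_num) (by linarith)
    rw [hθ]
    linarith
  have hθ1 : θ < 1 := by
    have : 0 < 1 / (16 * (Q : ℝ) ^ 2) := by positivity
    rw [hθ]
    linarith
  have hl : 0 ≤ -(3 * Real.log w) := by
    have := Real.log_nonpos hw.le hw1
    linarith
  set l := -(3 * Real.log w) with hldef
  set C := l * (32 * (Q : ℝ) ^ 4) with hC
  have hC0 : 0 ≤ C := by positivity
  have hlogθ : 0 < -Real.log θ := by
    have := Real.log_neg hθ0 hθ1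
    linarith
  refine ⟨-Real.log θ / (1 + C), by positivity, ?_⟩
  intro m g f f' h hQ hs J R hR1 hRf hRf'
  have hR0 : 0 < R := by linarith
  have hM : 0 < m J := h.pos J
  have hMr : (0 : ℝ) < m J := by exact_mod_cast hM
  set Red := (Finset.range (m J)).image f with hRed
  set Blu := (Finset.range (m J)).image f' with hBlu
  have hRedlt : ∀ a ∈ Red, a < m J := by
    intro a ha
    rw [hRed, Finset.mem_image] at ha
    obtain ⟨n, hn, rfl⟩ := ha
    exact (hs.left.le n).trans_lt (Finset.mem_range.1 hn)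
  have hBlult : ∀ a ∈ Blu, a < m J := by
    intro a ha
    rw [hBlu, Finset.mem_image] at ha
    obtain ⟨n, hn, rfl⟩ := ha
    exact (hs.right.le n).trans_lt (Finset.mem_range.1 hn)
  have hRed2 := sq_card_le Red (m J) hRedlt R hRf
  have hBlu2 := sq_card_le Blu (m J) hBlult R hRf'
  have hRed0 : (0 : ℝ) < Red.card := by
    have : 0 < Red.card := by
      rw [Finset.card_pos]
      exact ⟨f 0, Finset.mem_image.2 ⟨0, Finset.mem_range.2 hM, rfl⟩⟩
    exact_mod_cast this
  have hBlu0 : (0 : ℝ) < Blu.card := by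
    have : 0 < Blu.card := by
      rw [Finset.card_pos]
      exact ⟨f' 0, Finset.mem_image.2 ⟨0, Finset.mem_range.2 hM, rfl⟩⟩
    exact_mod_cast this
  have hYf : (Red.card : ℝ) ≤ √(2 * m J * R) := Real.le_sqrt_of_sq_le hRed2
  have hYf' : (Blu.card : ℝ) ≤ √(2 * m J * R) := Real.le_sqrt_of_sq_le hBlu2
  -- the relative entropy
  have hphi : ∑ n ∈ Finset.range (m J), phi m f f' J n ≤ m J * Real.log (2 * R) := by
    refine (phi_sum_le f f' J hM).trans ?_
    refine mul_le_mul_of_nonneg_left ?_ hMr.le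
    have e1 : 2 * Real.log Red.card ≤ Real.log (2 * m J * R) := by
      have := Real.log_le_log (by positivity) hRed2
      rw [Real.log_pow] at this
      exact_mod_cast this
    have e2 : 2 * Real.log Blu.card ≤ Real.log (2 * m J * R) := by
      have := Real.log_le_log (by positivity) hBlu2
      rw [Real.log_pow] at this
      exact_mod_cast this
    have e3 : Real.log (2 * m J * R) = Real.log (2 * R) + Real.log (m J) := by
      rw [show 2 * (m J : ℝ) * R = 2 * R * m J by ring, Real.log_mul (by positivity) hMr.ne']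
    linarith
  have htot := energy h hs hQ J
  have hN : (∑ n ∈ Finset.range (m J), NN m g f f' J n) / m J ≤
      32 * (Q : ℝ) ^ 4 * Real.log (2 * R) := by
    rw [div_le_iff₀ hMr]
    refine htot.trans ?_
    have := mul_le_mul_of_nonneg_left hphi (by positivity : (0 : ℝ) ≤ 32 * (Q : ℝ) ^ 4)
    linarith
  have hlow : m J * Real.exp (-(C * Real.log (2 * R))) ≤
      ∑ n ∈ Finset.range (m J), Real.exp (-(l * NN m g f f' J n)) := by
    refine le_trans ?_ (exp_sum_ge (fun n => NN m g f f' J n) hM l)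
    refine mul_le_mul_of_nonneg_left ?_ hMr.le
    rw [Real.exp_le_exp]
    have := mul_le_mul_of_nonneg_left hN hl
    rw [hC]
    linarith
  have hup : ∑ n ∈ Finset.range (m J), Real.exp (-(l * NN m g f f' J n)) ≤
      √R * (√(m J : ℝ) * θ ^ J) * √(2 * m J * R) := by
    calc ∑ n ∈ Finset.range (m J), Real.exp (-(l * NN m g f f' J n))
        ≤ ∑ n ∈ Finset.range (m J), pw w m g f f' J (f n) (f' n) :=
          Finset.sum_le_sum fun n _ => exp_NN_le h hs hw hw1 J n
      _ ≤ _ := pair_sum_le hs hw.le J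
      _ = _ := group w J
      _ ≤ √R * (∏ j : Fin J, (√(g j : ℝ) * (1 - 1 / (16 * (Q : ℝ) ^ 2)))) *
          √(2 * m J * R) :=
          schur g (fun j => ⟨h.two j, hQ j⟩) hw hwQ J (rr w m g f J) (rr w m g f' J) R
            (√(2 * m J * R)) hR0.le (rr_nonneg hw.le _ _ _ _) (rr_nonneg hw.le _ _ _ _)
            (fun G _ => rr_sq h hs.left.le hw.le hw1 J R hR0.le hRf G)
            (fun G _ => rr_sq h hs.right.le hw.le hw1 J R hR0.le hRf' G)
            ((rr_sum hw.le hw1 m g f J).trans hYf) ((rr_sum hw.le hw1 m g f' J).trans hYf')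
      _ = _ := by rw [prod_sqrt h]
  have hcomb : √R * (√(m J : ℝ) * θ ^ J) * √(2 * m J * R) ≤ m J * (2 * R * θ ^ J) := by
    have e1 : √R * √(m J : ℝ) * √(2 * m J * R) ≤ m J * (2 * R) := by
      rw [← Real.sqrt_mul hR0.le, ← Real.sqrt_mul (by positivity)]
      rw [Real.sqrt_le_left (by positivity)]
      have : 0 ≤ (R * m J) ^ 2 := sq_nonneg _
      nlinarith
    have e2 : 0 ≤ θ ^ J := by positivity
    have := mul_le_mul_of_nonneg_right e1 e2
    linarith
  have hfin : Real.exp (-(C * Real.log (2 * R))) ≤ 2 * R * θ ^ J := by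
    have := (hlow.trans hup).trans hcomb
    exact le_of_mul_le_mul_left this hMr
  have hlog := Real.log_le_log (Real.exp_pos _) hfin
  rw [Real.log_exp, Real.log_mul (mul_pos two_pos hR0).ne' (pow_pos hθ0 J).ne', Real.log_pow] at hlog
  rw [div_mul_eq_mul_div, div_le_iff₀ (by positivity)]
  linarith

end Pool.Agent.Helper72.PW
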