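import Pool.Agent.Helper72.PW.Main
import Pool.Agent.Helper72.NS.Chains
import Pool.Agent.Helper72.NS.Sets

/-! Choices digit by digit: the number of representations grows like a power. -/

namespace Pool.Agent.Helper72.PW

open Finset Filter Pool.Agent.Helper72.NS

lemma count_le_rep (A : Set ℕ) (S : Finset ℕ) (c d : ℕ) (hd : 0 < d) (hS : ∀ a ∈ S, c + d * a ∈ A)
    (s : ℕ) : ((S ×ˢ S).filter fun p => p.1 + p.2 = s).card ≤ rep A (2 * c + d * s) := by
  unfold rep
  have hfin : {q : ℕ × ℕ | q.1 ∈ A ∧ q.2 ∈ A ∧ q.1 + q.2 = 2 * c + d * s}.Finite := by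
    refine Set.Finite.subset (Finset.finite_toSet
      (Finset.range (2 * c + d * s + 1) ×ˢ Finset.range (2 * c + d * s + 1))) ?_
    rintro ⟨a, b⟩ ⟨_, _, h3⟩
    simp only at h3
    rw [Finset.mem_coe, Finset.mem_product, Finset.mem_range, Finset.mem_range]
    exact ⟨by simp only; omega, by simp only; omega⟩
  have hinj : Set.InjOn (fun p : ℕ × ℕ => (c + d * p.1, c + d * p.2))
      ((((S ×ˢ S).filter fun p => p.1 + p.2 = s) : Finset (ℕ × ℕ)) : Set (ℕ × ℕ)) := by
    rintro ⟨a, b⟩ _ ⟨a', b'⟩ _ h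
    simp only [Prod.mk.injEq] at h
    have h1 : d * a = d * a' := by omega
    have h2 : d * b = d * b' := by omega
    rw [Nat.eq_of_mul_eq_mul_left hd h1, Nat.eq_of_mul_eq_mul_left hd h2]
  rw [← Finset.card_image_of_injOn hinj, ← Set.ncard_coe_finset]
  refine Set.ncard_le_ncard ?_ hfin
  intro q hq
  rw [Finset.mem_coe, Finset.mem_image] at hq
  obtain ⟨p, hp, rfl⟩ := hq
  rw [Finset.mem_filter, Finset.mem_product] at hp
  refine ⟨hS _ hp.1.1, hS _ hp.1.2, ?_⟩
  simp only
  rw [← hp.2]
  ring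

/-- The reduced splitting. -/
lemma reduce {m f : ℕ → ℕ} (hm : Chain m) {t s : ℕ} (hs : t < m s)
    (hf : ∀ n ≥ t, f n ≤ n)
    (hL : ∀ j, ∀ n ≥ t, ∀ n' ≥ t, n % m j = n' % m j → f n % m j = f n' % m j) :
    (∀ k, f (t + m s * k) = f t + m s * (f (t + m s * k) / m s)) ∧
    Split (fun j => m (s + j) / m s) (fun k => f (t + m s * k) / m s)
      (fun k => k - f (t + m s * k) / m s) := by
  have hms : 0 < m s := hm.pos s
  have hft : f t < m s := (hf t le_rfl).trans_lt hs
  have e1 : ∀ k, f (t + m s * k) = f t + m s * (f (t + m s * k) / m s) := by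
    intro k
    have h1 := hL s (t + m s * k) (by omega) t le_rfl (Nat.add_mul_mod_self_left _ _ _)
    rw [Nat.mod_eq_of_lt hft] at h1
    have h2 := Nat.div_add_mod (f (t + m s * k)) (m s)
    rw [h1] at h2
    omega
  have e2 : ∀ k, f (t + m s * k) / m s ≤ k := by
    intro k
    have h1 := Nat.div_le_div_right (c := m s) (hf (t + m s * k) (by omega))
    rwa [Nat.add_mul_div_left _ _ hms, Nat.div_eq_of_lt hs, zero_add] at h1
  set F : ℕ → ℕ := fun k => f (t + m s * k) / m s with hF
  have hM : ∀ j, m s * (m (s + j) / m s) = m (s + j) := fun j =>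
    Nat.mul_div_cancel' (hm.dvd' (by omega))
  have hMpos : ∀ j, 0 < m (s + j) / m s := by
    intro j
    have h1 := hM j
    have h2 := hm.pos (s + j)
    rcases Nat.eq_zero_or_pos (m (s + j) / m s) with h3 | h3
    · rw [h3, mul_zero] at h1; omega
    · exact h3
  have hmodF : ∀ j k, F k % (m (s + j) / m s) = F (k % (m (s + j) / m s)) := by
    intro j k
    set M := m (s + j) / m s with hMd
    have hk : k % M < M := Nat.mod_lt _ (hMpos j)
    have h1 : (t + m s * k) % m (s + j) = (t + m s * (k % M)) % m (s + j) := by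
      rw [← hM j]
      have h2 : m s * k ≡ m s * (k % M) [MOD m s * M] :=
        Nat.ModEq.mul_left' _ (Nat.mod_modEq k M).symm
      exact Nat.ModEq.add_left t h2
    have h3 := hL (s + j) _ (by omega) _ (by omega) h1
    have h4 : f t + m s * F k ≡ f t + m s * F (k % M) [MOD m s * M] := by
      have h5 : f (t + m s * k) ≡ f (t + m s * (k % M)) [MOD m s * M] := by
        rw [hM j]
        exact h3
      rw [e1 k, e1 (k % M)] at h5
      exact h5
    have h5 : m s * F k ≡ m s * F (k % M) [MOD m s * M] := Nat.ModEq.add_left_cancel' _ h4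
    have h6 : F k ≡ F (k % M) [MOD M] := Nat.ModEq.mul_left_cancel' (by omega) h5
    have h7 : F (k % M) % M = F (k % M) := Nat.mod_eq_of_lt ((e2 _).trans_lt hk)
    rw [← h7]
    exact h6
  refine ⟨e1, ⟨fun n => ?_, ⟨e2, hmodF⟩, ⟨fun n => Nat.sub_le _ _, fun j k => ?_⟩⟩⟩
  · have h0 : F n ≤ n := e2 n
    change F n + (n - F n) = n
    omega
  · set M := m (s + j) / m s with hMd
    have hk : k % M < M := Nat.mod_lt _ (hMpos j)
    have h1 := hmodF j k
    have h2 := Nat.div_add_mod (F k) M
    have h3 := Nat.div_add_mod k M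
    rw [h1] at h2
    have h4 : F k / M ≤ k / M := Nat.div_le_div_right (e2 k)
    have h5 := e2 (k % M)
    have h6 : M * (F k / M) ≤ M * (k / M) := Nat.mul_le_mul_left _ h4
    have h7 : k - F k = (k % M - F (k % M)) + M * (k / M - F k / M) := by
      rw [Nat.mul_sub]
      have h8 : F (k % M) ≤ k % M := h5
      have h9 : ∀ u v a b k' f' : ℕ, u + b = f' → v + a = k' → u ≤ v → b ≤ a →
          k' - f' = (a - b) + (v - u) := by
        intro u v a b k' f' q1 q2 q3 q4
        omega
      exact h9 _ _ _ _ _ _ h2 h3 h6 h8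
    change (k - F k) % M = k % M - F (k % M)
    rw [h7, Nat.add_mul_mod_self_left]
    exact Nat.mod_eq_of_lt (by omega)

/-- Choices digit by digit: a power of `x`. -/
theorem power (Q : ℕ) : ∃ c : ℝ, 0 < c ∧ ∀ (A : Set ℕ) (m f : ℕ → ℕ) (t : ℕ), Chain m →
    (∀ j, m (j + 1) ≤ Q * m j) →
    (∀ n ≥ t, f n ≤ n ∧ f n ∈ A ∧ n - f n ∈ A) →
    (∀ j, ∀ n ≥ t, ∀ n' ≥ t, n % m j = n' % m j → f n % m j = f n' % m j) →
    ∀ᶠ x : ℕ in atTop, ∃ n < x, (x : ℝ) ^ c ≤ rep A n := by
  rcases Nat.lt_or_ge Q 2 with hQ | hQ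
  · refine ⟨1, one_pos, fun A m f t hm hmQ => ?_⟩
    exfalso
    have h1 := hm.two 0
    have h2 := hmQ 0
    have h3 := hm.pos 0
    nlinarith
  obtain ⟨c₀, hc₀, hlev⟩ := levels hQ
  have hQr : (2 : ℝ) ≤ Q := by exact_mod_cast hQ
  have hlQ : 0 < Real.log Q := Real.log_pos (by linarith)
  refine ⟨c₀ / (2 * Real.log Q), by positivity, fun A m f t hm hmQ hf hL => ?_⟩
  set c := c₀ / (2 * Real.log Q) with hc
  have hc0 : 0 < c := by positivity
  -- the reduction
  have hpow : ∀ j, 2 ^ j ≤ m j := by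
    intro j
    induction j with
    | zero => rw [hm.one]; norm_num
    | succ j ih => have := hm.two j; rw [pow_succ]; omega
  have hts : t < m t := (Nat.lt_two_pow_self).trans_le (hpow t)
  obtain ⟨e1, hsplit⟩ := reduce hm hts (fun n hn => (hf n hn).1) hL
  set F : ℕ → ℕ := fun k => f (t + m t * k) / m t with hF
  have hmt : 0 < m t := hm.pos t
  have hM : ∀ j, m t * (m (t + j) / m t) = m (t + j) := fun j =>
    Nat.mul_div_cancel' (hm.dvd' (by omega))
  have hgm : ∀ j, m (t + j + 1) / m (t + j) * m (t + j) = m (t + j + 1) := fun j =>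
    Nat.div_mul_cancel (hm.dvd _)
  have hRad : Rad (fun j => m (t + j) / m t) (fun j => m (t + j + 1) / m (t + j)) := by
    refine ⟨?_, fun j => ?_, fun j => ?_⟩
    · simp only [add_zero]
      exact Nat.div_self hmt
    · have h1 := hM j
      have h2 := hM (j + 1)
      have h3 := hgm j
      refine Nat.eq_of_mul_eq_mul_left hmt ?_
      rw [h2, mul_left_comm, h1, h3, add_assoc]
    · rw [Nat.le_div_iff_mul_le (hm.pos _)]
      exact hm.two _
  have hgQ : ∀ j, m (t + j + 1) / m (t + j) ≤ Q := fun j =>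
    Nat.div_le_of_le_mul (by rw [mul_comm]; exact hmQ (t + j))
  -- large x
  have hlarge : ∀ᶠ x : ℕ in atTop,
      Real.log 2 + c₀ * (Real.log 4 / Real.log Q + t + 1) < c * Real.log x := by
    have h1 : Tendsto (fun x : ℕ => c * Real.log x) atTop atTop :=
      (Real.tendsto_log_atTop.comp tendsto_natCast_atTop_atTop).const_mul_atTop hc0
    exact h1.eventually_gt_atTop _
  filter_upwards [hlarge, Filter.eventually_ge_atTop (4 * m t + 1)] with x hx hxt
  by_contra hcon
  push Not at hcon
  have hx0 : (0 : ℝ) < x := by exact_mod_cast (by omega : 0 < x)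
  have hx1 : (1 : ℝ) ≤ x := by exact_mod_cast (by omega : 1 ≤ x)
  have hex : ∃ J, x < 4 * m (t + J) := by
    refine ⟨x, ?_⟩
    have h1 : x < 2 ^ (t + x) :=
      (Nat.lt_two_pow_self).trans_le (Nat.pow_le_pow_right (by norm_num) (by omega))
    have h2 := hpow (t + x)
    omega
  classical
  set K := Nat.find hex with hK
  have hK1 : x < 4 * m (t + K) := Nat.find_spec hex
  have hK0 : K ≠ 0 := by
    intro h0
    rw [h0, add_zero] at hK1
    omega
  obtain ⟨J, hJ⟩ := Nat.exists_eq_succ_of_ne_zero hK0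
  have hJ1 : 4 * m (t + J) ≤ x := by
    have h1 := Nat.find_min hex (m := J) (by rw [← hK, hJ]; exact Nat.lt_succ_self J)
    omega
  have hcount : ∀ (S : Finset ℕ) (e : ℕ), e ≤ t → (∀ a ∈ S, a < m (t + J) / m t) →
      (∀ a ∈ S, e + m t * a ∈ A) → ∀ s,
      (((S ×ˢ S).filter fun p => p.1 + p.2 = s).card : ℝ) ≤ (x : ℝ) ^ c := by
    intro S e he hSlt hSA s
    rcases ((S ×ˢ S).filter fun p => p.1 + p.2 = s).eq_empty_or_nonempty with h0 | ⟨p, hp⟩
    · rw [h0, Finset.card_empty, Nat.cast_zero]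
      positivity
    · have h1 := count_le_rep A S e (m t) hmt hSA s
      have h2 : 2 * e + m t * s < x := by
        rw [Finset.mem_filter, Finset.mem_product] at hp
        have h3 := hSlt _ hp.1.1
        have h4 := hSlt _ hp.1.2
        have h5 : s ≤ 2 * (m (t + J) / m t) := by omega
        have h6 := Nat.mul_le_mul_left (m t) h5
        have h7 := hM J
        have h8 : m t * (2 * (m (t + J) / m t)) = 2 * m (t + J) := by
          rw [mul_left_comm, h7]
        have h9 : m t ≤ m (t + J) := Nat.le_of_dvd (hm.pos _) (hm.dvd' (by omega))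
        omega
      have h3 := (hcon _ h2).le
      exact le_trans (by exact_mod_cast h1) h3
  have hMJ : ∀ a ∈ (Finset.range (m (t + J) / m t)).image F, a < m (t + J) / m t := by
    intro a ha
    rw [Finset.mem_image] at ha
    obtain ⟨n, hn, rfl⟩ := ha
    exact (hsplit.left.le n).trans_lt (Finset.mem_range.1 hn)
  have hMJ' : ∀ a ∈ (Finset.range (m (t + J) / m t)).image (fun k => k - F k),
      a < m (t + J) / m t := by
    intro a ha
    rw [Finset.mem_image] at ha
    obtain ⟨n, hn, rfl⟩ := ha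
    exact (Nat.sub_le _ _).trans_lt (Finset.mem_range.1 hn)
  have hft : f t ≤ t := (hf t le_rfl).1
  have hfin := hlev _ _ _ _ hRad hgQ hsplit J ((x : ℝ) ^ c)
    (Real.one_le_rpow hx1 hc0.le)
    (hcount _ (f t) hft hMJ fun a ha => by
      rw [Finset.mem_image] at ha
      obtain ⟨n, _, rfl⟩ := ha
      have h1 := (hf (t + m t * n) (by omega)).2.1
      rwa [e1 n] at h1)
    (hcount _ (t - f t) (by omega) hMJ' fun a ha => by
      rw [Finset.mem_image] at ha
      obtain ⟨n, _, rfl⟩ := ha
      have h1 := (hf (t + m t * n) (by omega)).2.2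
      rw [e1 n] at h1
      have h2 : t - f t + m t * (n - F n) = t + m t * n - (f t + m t * F n) := by
        have h3 : F n ≤ n := hsplit.left.le n
        have h4 := Nat.mul_le_mul_left (m t) h3
        rw [Nat.mul_sub]
        omega
      rw [h2]
      exact h1)
  rw [Real.log_mul (by norm_num) (by positivity), Real.log_rpow hx0] at hfin
  -- the number of levels
  have hmle : ∀ j, (m j : ℝ) ≤ (Q : ℝ) ^ j := by
    intro j
    induction j with
    | zero => rw [hm.one]; simp
    | succ j ih =>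
      have h1 : (m (j + 1) : ℝ) ≤ Q * m j := by exact_mod_cast hmQ j
      rw [pow_succ]
      nlinarith
  have hlx : Real.log x ≤ Real.log 4 + (t + J + 1) * Real.log Q := by
    have h1 : (x : ℝ) ≤ 4 * (Q : ℝ) ^ (t + K) := by
      have h2 : (x : ℝ) ≤ 4 * m (t + K) := by exact_mod_cast hK1.le
      have h3 := hmle (t + K)
      linarith
    have h2 := Real.log_le_log hx0 h1
    rw [Real.log_mul (by norm_num) (by positivity), Real.log_pow, hJ] at h2
    push_cast at h2
    linarith
  have h1 : c₀ * (Real.log x / Real.log Q) ≤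
      c₀ * (Real.log 4 / Real.log Q + t + 1) + c₀ * J := by
    rw [← mul_add]
    refine mul_le_mul_of_nonneg_left ?_ hc₀.le
    rw [div_le_iff₀ hlQ]
    calc Real.log x ≤ Real.log 4 + (t + J + 1) * Real.log Q := hlx
      _ = _ := by
        field_simp
        ring
  have h2 : c₀ * (Real.log x / Real.log Q) = 2 * (c * Real.log x) := by
    rw [hc]
    field_simp
  linarith

end Pool.Agent.Helper72.PW
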