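import Pool.Agent.Helper72.NS.Causal

/-! Choices with look-ahead along a chain of bounded ratios. -/

namespace Pool.Agent.Helper72.NS

open Finset Filter

lemma chosen_classC {m : ℕ → ℕ} (hm : Chain m) {Q : ℕ} (hq : ∀ j, m (j + 1) ≤ Q * m j)
    {n₀ j k : ℕ} {f : ℕ → ℕ} {A : Set ℕ}
    (hf : ∀ n ≥ n₀, f n ≤ n ∧ f n ∈ A ∧ n - f n ∈ A)
    (hL : ∀ n ≥ n₀, ∀ n' ≥ n₀, n % m (j + k) = n' % m (j + k) → f n % m j = f n' % m j)
    {a : ℕ} (ha : a ∈ chosen f n₀) :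
    ∃ b ∈ chosen f n₀, b < (n₀ + 1) * Q ^ k * m j ∧ b % m j = a % m j := by
  obtain ⟨n, hn0, hn⟩ := ha
  have hpos : 0 < m (j + k) := hm.pos _
  have hle : m (j + k) ≤ Q ^ k * m j := m_le_pow hq j k
  set n' := n₀ + (n - n₀) % m (j + k) with hn'
  have h0 : n₀ ≤ n' := Nat.le_add_right _ _
  have h1 : n' < (n₀ + 1) * Q ^ k * m j := by
    have h2 := Nat.mod_lt (n - n₀) hpos
    have h3 : n₀ ≤ n₀ * m (j + k) := Nat.le_mul_of_pos_right _ hpos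
    calc n' < (n₀ + 1) * m (j + k) := by
          rw [add_mul, one_mul]
          omega
      _ ≤ (n₀ + 1) * (Q ^ k * m j) := Nat.mul_le_mul_left _ hle
      _ = _ := by rw [mul_assoc]
  have h2 : n' % m (j + k) = n % m (j + k) := by
    have e : n = n₀ + (n - n₀) := by omega
    conv_rhs => rw [e]
    rw [hn', Nat.add_mod n₀ ((n - n₀) % m (j + k)), Nat.mod_mod, ← Nat.add_mod]
  have h3 : f n' % m j = f n % m j := hL n' h0 n hn0 h2
  have h4 : n' % m j = n % m j := by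
    have hdvd : m j ∣ m (j + k) := hm.dvd' (Nat.le_add_right j k)
    rw [← Nat.mod_mod_of_dvd n' hdvd, h2, Nat.mod_mod_of_dvd n hdvd]
  rcases hn with rfl | rfl
  · exact ⟨f n', ⟨n', h0, Or.inl rfl⟩, lt_of_le_of_lt (hf n' h0).1 h1, h3⟩
  · refine ⟨n' - f n', ⟨n', h0, Or.inr rfl⟩, lt_of_le_of_lt (Nat.sub_le _ _) h1, ?_⟩
    have h5 : (n' - f n') + f n' ≡ (n - f n) + f n' [MOD m j] := by
      rw [Nat.sub_add_cancel (hf n' h0).1]
      have h6 : (n - f n) + f n' ≡ (n - f n) + f n [MOD m j] := Nat.ModEq.add_left _ h3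
      rw [Nat.sub_add_cancel (hf n hn0).1] at h6
      exact Nat.ModEq.trans h4 h6.symm
    exact Nat.ModEq.add_right_cancel' _ h5

/-- online choice of the representation with look-ahead `h` -/
theorem causalC (Q h n₀ : ℕ) : ∃ E : ℝ, 0 < E ∧ ∀ (A : Set ℕ) (m f : ℕ → ℕ), Chain m →
    (∀ j, m (j + 1) ≤ Q * m j) →
    (∀ n ≥ n₀, f n ≤ n ∧ f n ∈ A ∧ n - f n ∈ A) →
    (∀ j, ∀ n ≥ n₀, ∀ n' ≥ n₀, n % m (j + h) = n' % m (j + h) → f n % m j = f n' % m j) →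
    ∃ᶠ n : ℕ in atTop, Real.log n / E ≤ rep A n := by
  rcases Nat.lt_or_ge Q 2 with hQ | hQ
  · refine ⟨1, one_pos, fun A m f hm hmQ => ?_⟩
    exfalso
    have h1 := hm.two 0
    have h2 := hmQ 0
    have h3 := hm.pos 0
    nlinarith
  have hC : 1 ≤ (n₀ + 1) * Q ^ h := Nat.mul_pos (by omega) (Nat.pow_pos (by omega))
  obtain ⟨E, hE, hmain⟩ := main_nested (Q := Q) (C := (n₀ + 1) * Q ^ h) hQ hC
  refine ⟨E, hE, fun A m f hm hq hf hL => ?_⟩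
  have hnest : Nested (chosen f n₀) m ((n₀ + 1) * Q ^ h) := by
    refine nested_low hC fun j a ha => ?_
    obtain ⟨b, hb, hb2, hb3⟩ := chosen_classC hm hq hf (hL j) ha
    exact ⟨b, hb, hb2, hb3⟩
  obtain ⟨-, h2, -⟩ := hmain (chosen f n₀) m hm hq hnest
  have hb : ∃ N : ℕ, ∀ n : ℕ, N ≤ n → ∃ a ∈ chosen f n₀, ∃ b ∈ chosen f n₀, a + b = n :=
    ⟨n₀, fun n hn => ⟨f n, ⟨n, hn, Or.inl rfl⟩, n - f n, ⟨n, hn, Or.inr rfl⟩,
      Nat.add_sub_cancel' (hf n hn).1⟩⟩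
  have h3 := h2 0 (1 / 2) (by norm_num) (thick_of_basis hb)
  refine h3.mono fun n hn => ?_
  have e : E * (((0 : ℕ) : ℝ) + 1) = E := by simp
  rw [e] at hn
  exact hn.trans (by exact_mod_cast rep_mono (chosen_sub hf) n)

end Pool.Agent.Helper72.NS
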