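import Pool.Agent.Helper72.NS.CandY
import Pool.Agent.Helper72.PW.LookC
import Pool.Agent.Helper72.PW.Final

/-! MP_12a1af_nt: the Erdos-Turan problem and the choice of representations. -/

namespace Pool.Agent.Helper72.NS

open Finset Filter

/-- Differences in decreasing sets, mean squares of the number of representations, and choices of
representations. -/
theorem candZ :
    (∀ (A : Set ℕ) (x : ℕ) (G : ℕ → Finset ℤ),
      (∀ j, G (j + 1) ⊆ G j ∧ 2 * (G (j + 1)).card ≤ (G j).card) →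
      (∀ J, ∑ j ∈ Finset.range J, (near A x (G j) : ℝ) ^ 2 / ((G j).card : ℝ) ≤
        12 * ∑ n ∈ Finset.range (2 * x), (rep A n : ℝ) ^ 2) ∧
      ∀ (D : Finset ℕ) (f : ℕ → ℕ), (∀ n ∈ D, n < x ∧ f n ≤ n ∧ f n ∈ A ∧ n - f n ∈ A) →
        ∀ j, close D f (G j) ≤ near A x (G j) ^ 2) ∧
    (∀ (A D : Set ℕ) (m : ℕ → ℕ) (f : ℕ → ℕ → ℕ), Chain m →
      (∀ j, ∀ n ∈ D, f j n ≤ n ∧ f j n ∈ A ∧ n - f j n ∈ A) →
      (∀ J, (num D (m J) : ℝ) ^ 2 * ∑ j ∈ Finset.range (J + 1),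
          (m j : ℝ) / (((fun n => (n % m j, f j n % m j)) '' D).ncard : ℝ)
        ≤ 24 * m J * ∑ n ∈ Finset.range (2 * m J), (rep A n : ℝ) ^ 2) ∧
      ∀ δ : ℝ, 0 < δ → (∃ᶠ J : ℕ in atTop, δ * m J ≤ num D (m J)) →
        (¬ Summable fun j =>
          (m j : ℝ) / (((fun n => (n % m j, f j n % m j)) '' D).ncard : ℝ)) →
        ∀ g : ℕ, ∃ n, g < rep A n) ∧
    (∀ Q h t : ℕ, ∃ E : ℝ, 0 < E ∧ ∀ (A : Set ℕ) (m f : ℕ → ℕ), Chain m →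
      (∀ j, m (j + 1) ≤ Q * m j) →
      (∀ n ≥ t, f n ≤ n ∧ f n ∈ A ∧ n - f n ∈ A) →
      (∀ j, ∀ n ≥ t, ∀ n' ≥ t, n % m (j + h) = n' % m (j + h) → f n % m j = f n' % m j) →
      ∃ᶠ n : ℕ in atTop, Real.log n / E ≤ rep A n) ∧
    (∀ Q : ℕ, ∃ c : ℝ, 0 < c ∧ ∀ (A : Set ℕ) (m f : ℕ → ℕ) (t : ℕ), Chain m →
      (∀ j, m (j + 1) ≤ Q * m j) →
      (∀ n ≥ t, f n ≤ n ∧ f n ∈ A ∧ n - f n ∈ A) →
      (∀ j, ∀ n ≥ t, ∀ n' ≥ t, n % m j = n' % m j → f n % m j = f n' % m j) →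
      ∀ᶠ x : ℕ in atTop, ∃ n < x, (x : ℝ) ^ c ≤ rep A n) := by
  refine ⟨fun A x G hG => ⟨fun J => near_main A x G hG J, fun D f hf j =>
    close_le A x (G j) D f hf⟩, fun A D m f hm hf => ⟨fun J => few_square' hm A D f hf J,
    fun δ hδ hD hs g => few_unbounded' hm A D f hf δ hδ hD hs g⟩, ?_, ?_⟩
  · intro Q h t
    exact causalC Q h t
  · intro Q
    exact PW.power Q

end Pool.Agent.Helper72.NS
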