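import Pool.Agent.Helper72.PW.Schur

/-! Sums of two elements with digits in prescribed sets. -/

namespace Pool.Agent.Helper72.PW

open Finset

/-- mixed radix digits -/
def dg (m : ℕ → ℕ) (j a : ℕ) : ℕ := (a % m (j + 1)) / m j

/-- `m` is the sequence of partial products of `g` -/
structure Rad (m g : ℕ → ℕ) : Prop where
  one : m 0 = 1
  succ : ∀ j, m (j + 1) = g j * m j
  two : ∀ j, 2 ≤ g j

variable {m g : ℕ → ℕ}

lemma Rad.pos (h : Rad m g) : ∀ j, 0 < m j := by
  intro j
  induction j with
  | zero => rw [h.one]; norm_num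
  | succ j ih =>
    rw [h.succ]
    exact Nat.mul_pos (by have := h.two j; omega) ih

lemma Rad.dvd (h : Rad m g) (j : ℕ) : m j ∣ m (j + 1) := by
  rw [h.succ]
  exact Dvd.intro_left _ rfl

lemma Rad.dvd_le (h : Rad m g) {i j : ℕ} (hij : i ≤ j) : m i ∣ m j := by
  induction j, hij using Nat.le_induction with
  | base => exact dvd_rfl
  | succ j _ ih => exact ih.trans (h.dvd j)

lemma dg_lt (h : Rad m g) (j a : ℕ) : dg m j a < g j := by
  unfold dg
  refine Nat.div_lt_of_lt_mul ?_
  rw [mul_comm, ← h.succ]
  exact Nat.mod_lt _ (h.pos _)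

lemma mod_succ (h : Rad m g) (j a : ℕ) : a % m (j + 1) = a % m j + dg m j a * m j := by
  unfold dg
  have h1 := Nat.div_add_mod (a % m (j + 1)) (m j)
  rw [Nat.mod_mod_of_dvd a (h.dvd j)] at h1
  rw [mul_comm]
  omega

lemma digit_sum (h : Rad m g) (J : ℕ) (a a' b b' : ℕ)
    (hd : ∀ j < J, dg m j a + dg m j a' = dg m j b + dg m j b') :
    a % m J + a' % m J = b % m J + b' % m J := by
  induction J with
  | zero => rw [h.one, Nat.mod_one, Nat.mod_one, Nat.mod_one, Nat.mod_one]
  | succ J ih =>
    have h1 := ih fun j hj => hd j (by omega)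
    have h2 := hd J (by omega)
    rw [mod_succ h J a, mod_succ h J a', mod_succ h J b, mod_succ h J b']
    have h3 : dg m J a * m J + dg m J a' * m J = dg m J b * m J + dg m J b' * m J := by
      rw [← add_mul, ← add_mul, h2]
    omega

open Classical in
/-- the weight of the digits outside of the prescribed sets -/
noncomputable def wt (w : ℝ) (m : ℕ → ℕ) {J : ℕ} (G : Fin J → Finset ℕ) (a : ℕ) : ℝ :=
  ∏ j : Fin J, if dg m j a ∈ G j then 1 else w

lemma wt_nonneg {w : ℝ} (hw : 0 ≤ w) (m : ℕ → ℕ) {J : ℕ} (G : Fin J → Finset ℕ) (a : ℕ) :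
    0 ≤ wt w m G a := by
  classical
  unfold wt
  refine Finset.prod_nonneg fun j _ => ?_
  split_ifs
  · norm_num
  · exact hw

lemma wt_le_one {w : ℝ} (hw : 0 ≤ w) (hw1 : w ≤ 1) (m : ℕ → ℕ) {J : ℕ} (G : Fin J → Finset ℕ)
    (a : ℕ) : wt w m G a ≤ 1 := by
  classical
  unfold wt
  refine Finset.prod_le_one (fun j _ => ?_) fun j _ => ?_
  · split_ifs
    · norm_num
    · exact hw
  · split_ifs
    · exact le_rfl
    · exact hw1

/-- Elements with digits in prescribed sets, up to weights. -/
theorem class_sq (h : Rad m g) {w : ℝ} (hw : 0 ≤ w) (hw1 : w ≤ 1) (J : ℕ)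
    (G : Fin J → Finset ℕ) (S : Finset ℕ) (hS : ∀ a ∈ S, a < m J) (R : ℝ) (hR0 : 0 ≤ R)
    (hR : ∀ s, (((S ×ˢ S).filter fun p => p.1 + p.2 = s).card : ℝ) ≤ R) :
    (∑ a ∈ S, wt w m G a) ^ 2 ≤ R * ∏ j : Fin J, EE w (g j) (G j) := by
  classical
  set v : Fin J → ℕ → ℝ := fun j s => if s ∈ sums (G j) then 1 else w with hv
  have hv0 : ∀ j s, 0 ≤ v j s := by
    intro j s
    rw [hv]
    simp only
    split_ifs
    · norm_num
    · exact hw
  have h1 : ∀ a a' : ℕ, wt w m G a * wt w m G a' ≤ ∏ j : Fin J, v j (dg m j a + dg m j a') := by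
    intro a a'
    unfold wt
    rw [← Finset.prod_mul_distrib]
    refine Finset.prod_le_prod (fun j _ => ?_) fun j _ => ?_
    · refine mul_nonneg ?_ ?_ <;> split_ifs <;> first | exact hw | exact zero_le_one
    · rw [hv]
      simp only
      by_cases e1 : dg m j a ∈ G j
      · by_cases e2 : dg m j a' ∈ G j
        · have e3 : dg m j a + dg m j a' ∈ sums (G j) := by
            unfold sums
            rw [Finset.mem_image]
            exact ⟨(dg m j a, dg m j a'), Finset.mem_product.2 ⟨e1, e2⟩, rfl⟩
          rw [if_pos e1, if_pos e2, if_pos e3, mul_one]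
        · rw [if_pos e1, if_neg e2, one_mul]
          split_ifs
          · exact hw1
          · exact le_rfl
      · rw [if_neg e1]
        have e3 : (if dg m j a' ∈ G j then (1 : ℝ) else w) ≤ 1 := by
          split_ifs
          · exact le_rfl
          · exact hw1
        have e4 : w * (if dg m j a' ∈ G j then (1 : ℝ) else w) ≤ w * 1 :=
          mul_le_mul_of_nonneg_left e3 hw
        rw [mul_one] at e4
        refine e4.trans ?_
        split_ifs
        · exact hw1
        · exact le_rfl
  set T : Finset (Fin J → ℕ) := Fintype.piFinset fun j : Fin J => Finset.range (2 * g j) with hT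
  set D : ℕ × ℕ → (Fin J → ℕ) := fun p j => dg m j p.1 + dg m j p.2 with hD
  have hmaps : ∀ p ∈ S ×ˢ S, D p ∈ T := by
    intro p _
    rw [hT, Fintype.mem_piFinset]
    intro j
    rw [Finset.mem_range, hD]
    have e1 := dg_lt h j p.1
    have e2 := dg_lt h j p.2
    simp only
    omega
  have hcount : ∀ σ ∈ T, (((S ×ˢ S).filter fun p => D p = σ).card : ℝ) ≤ R := by
    intro σ _
    rcases ((S ×ˢ S).filter fun p => D p = σ).eq_empty_or_nonempty with he | ⟨q, hq⟩
    · rw [he, Finset.card_empty, Nat.cast_zero]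
      exact hR0
    · refine le_trans ?_ (hR (q.1 + q.2))
      have hsub : ((S ×ˢ S).filter fun p => D p = σ) ⊆
          ((S ×ˢ S).filter fun p => p.1 + p.2 = q.1 + q.2) := by
        intro p hp
        rw [Finset.mem_filter, Finset.mem_product] at hp hq ⊢
        refine ⟨hp.1, ?_⟩
        have e1 := digit_sum h J p.1 p.2 q.1 q.2 fun j hj => by
          have e2 := congrFun (hp.2.trans hq.2.symm) ⟨j, hj⟩
          rw [hD] at e2
          exact e2
        rw [Nat.mod_eq_of_lt (hS _ hp.1.1), Nat.mod_eq_of_lt (hS _ hp.1.2),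
          Nat.mod_eq_of_lt (hS _ hq.1.1), Nat.mod_eq_of_lt (hS _ hq.1.2)] at e1
        exact e1
      exact_mod_cast Finset.card_le_card hsub
  calc (∑ a ∈ S, wt w m G a) ^ 2
      = ∑ p ∈ S ×ˢ S, wt w m G p.1 * wt w m G p.2 := by
        rw [sq, Finset.sum_mul_sum, Finset.sum_product]
    _ ≤ ∑ p ∈ S ×ˢ S, ∏ j : Fin J, v j (D p j) :=
        Finset.sum_le_sum fun p _ => h1 p.1 p.2
    _ = ∑ σ ∈ T, ∑ p ∈ (S ×ˢ S).filter (fun p => D p = σ), ∏ j : Fin J, v j (D p j) :=
        (Finset.sum_fiberwise_of_maps_to hmaps _).symm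
    _ ≤ ∑ σ ∈ T, R * ∏ j : Fin J, v j (σ j) := by
        refine Finset.sum_le_sum fun σ hσ => ?_
        have e0 : 0 ≤ ∏ j : Fin J, v j (σ j) := Finset.prod_nonneg fun j _ => hv0 j _
        calc ∑ p ∈ (S ×ˢ S).filter (fun p => D p = σ), ∏ j : Fin J, v j (D p j)
            = ∑ p ∈ (S ×ˢ S).filter (fun p => D p = σ), ∏ j : Fin J, v j (σ j) := by
              refine Finset.sum_congr rfl fun p hp => ?_
              rw [(Finset.mem_filter.1 hp).2]
          _ = (((S ×ˢ S).filter fun p => D p = σ).card : ℝ) * ∏ j : Fin J, v j (σ j) := by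
              rw [Finset.sum_const, nsmul_eq_mul]
          _ ≤ _ := mul_le_mul_of_nonneg_right (hcount σ hσ) e0
    _ = R * ∏ j : Fin J, ∑ s ∈ Finset.range (2 * g j), v j s := by
        rw [← Finset.mul_sum, Finset.prod_univ_sum]
    _ ≤ R * ∏ j : Fin J, EE w (g j) (G j) := by
        refine mul_le_mul_of_nonneg_left ?_ hR0
        refine Finset.prod_le_prod (fun j _ => Finset.sum_nonneg fun s _ => hv0 j s) fun j _ => ?_
        unfold EE
        calc ∑ s ∈ Finset.range (2 * g j), v j s
            ≤ ∑ s ∈ Finset.range (2 * g j), ((if s ∈ sums (G j) then (1 : ℝ) else 0) + w) := by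
              refine Finset.sum_le_sum fun s _ => ?_
              rw [hv]
              simp only
              split_ifs
              · linarith
              · linarith
          _ = (((Finset.range (2 * g j)).filter fun s => s ∈ sums (G j)).card : ℝ) +
              2 * g j * w := by
              rw [Finset.sum_add_distrib, Finset.sum_const, Finset.card_range, nsmul_eq_mul,
                Finset.sum_boole]
              push_cast
              ring
          _ ≤ _ := by
              have e1 : ((Finset.range (2 * g j)).filter fun s => s ∈ sums (G j)).card ≤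
                  (sums (G j)).card := by
                refine Finset.card_le_card fun s hs => ?_
                exact (Finset.mem_filter.1 hs).2
              have e2 : (((Finset.range (2 * g j)).filter fun s => s ∈ sums (G j)).card : ℝ) ≤
                  (sums (G j)).card := by exact_mod_cast e1
              linarith

end Pool.Agent.Helper72.PW
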