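import Mathlib

/-! A gap in the relative entropy of a staircase with respect to a product. -/

namespace Pool.Agent.Helper72.PW

open Finset

/-- `- log t` lies above its tangent at `1` by a quadratic term. -/
lemma neg_log_ge {g t : ℝ} (hg : 1 ≤ g) (ht : 0 < t) (htg : t ≤ g) :
    1 - t + (1 - t) ^ 2 / (2 * g) ≤ -Real.log t := by
  have hg0 : 0 < g := by linarith
  set h : ℝ → ℝ := fun s => -Real.log s - (1 - s) - (1 - s) ^ 2 / (2 * g) with hh
  have hd : ∀ s, 0 < s → HasDerivAt h ((s - 1) * (1 / s - 1 / g)) s := by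
    intro s hs
    have h1 : HasDerivAt (fun s => -Real.log s) (-(s⁻¹)) s := (Real.hasDerivAt_log hs.ne').neg
    have h2 : HasDerivAt (fun s : ℝ => 1 - s) (-1) s := by
      simpa using (hasDerivAt_id s).const_sub 1
    have h3 : HasDerivAt (fun s : ℝ => (1 - s) ^ 2 / (2 * g)) (2 * (1 - s) * (-1) / (2 * g)) s := by
      have := (h2.pow 2).div_const (2 * g)
      simpa using this
    have h4 := (h1.sub h2).sub h3
    refine h4.congr_deriv ?_
    field_simp
    ring
  have h1 : h 1 = 0 := by simp [hh]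
  have key : 0 ≤ h t := by
    rcases le_total t 1 with h5 | h5
    · have hanti : AntitoneOn h (Set.Icc t 1) := by
        refine antitoneOn_of_deriv_nonpos (convex_Icc t 1) ?_ ?_ ?_
        · intro s hs
          exact (hd s (by linarith [hs.1])).continuousAt.continuousWithinAt
        · intro s hs
          rw [interior_Icc] at hs
          exact (hd s (by linarith [hs.1])).differentiableAt.differentiableWithinAt
        · intro s hs
          rw [interior_Icc] at hs
          have hs0 : 0 < s := by linarith [hs.1]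
          rw [(hd s hs0).deriv]
          refine mul_nonpos_of_nonpos_of_nonneg (by linarith [hs.2]) ?_
          have : 1 / g ≤ 1 / s := one_div_le_one_div_of_le hs0 (by linarith [hs.2])
          linarith
      rw [← h1]
      exact hanti ⟨le_rfl, h5⟩ ⟨h5, le_rfl⟩ h5
    · have hmono : MonotoneOn h (Set.Icc 1 t) := by
        refine monotoneOn_of_deriv_nonneg (convex_Icc 1 t) ?_ ?_ ?_
        · intro s hs
          exact (hd s (by linarith [hs.1])).continuousAt.continuousWithinAt
        · intro s hs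
          rw [interior_Icc] at hs
          exact (hd s (by linarith [hs.1])).differentiableAt.differentiableWithinAt
        · intro s hs
          rw [interior_Icc] at hs
          have hs0 : 0 < s := by linarith [hs.1]
          rw [(hd s hs0).deriv]
          refine mul_nonneg (by linarith [hs.1]) ?_
          have : 1 / g ≤ 1 / s := one_div_le_one_div_of_le hs0 (by linarith [hs.2])
          linarith
      rw [← h1]
      exact hmono ⟨le_rfl, h5⟩ ⟨h5, le_rfl⟩ h5
  rw [hh] at key
  simp only at key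
  linarith

/-- the values of `mu` which are not small -/
noncomputable def big (g : ℕ) (μ : ℕ → ℝ) : Finset ℕ :=
  (Finset.range g).filter fun x => 1 / (2 * (g : ℝ)) ≤ μ x

lemma mem_big {g : ℕ} {μ : ℕ → ℝ} {x : ℕ} : x ∈ big g μ ↔ x < g ∧ 1 / (2 * (g : ℝ)) ≤ μ x := by
  unfold big
  rw [Finset.mem_filter, Finset.mem_range]

/-- The gap. -/
theorem gap {g : ℕ} (hg : 1 ≤ g) (μ ν : ℕ → ℝ) (hμ0 : ∀ x, 0 ≤ μ x) (hν0 : ∀ x, 0 ≤ ν x)
    (hμ : ∑ x ∈ Finset.range g, μ x = 1) (hν : ∑ x ∈ Finset.range g, ν x = 1) (x : ℕ → ℕ)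
    (hx : ∀ d < g, x d ≤ d) (hpos : ∀ d < g, 0 < μ (x d) ∧ 0 < ν (d - x d)) :
    0 ≤ ∑ d ∈ Finset.range g, -Real.log (g * (μ (x d) * ν (d - x d))) ∧
    ((∑ d ∈ Finset.range g, -Real.log (g * (μ (x d) * ν (d - x d))) < 1 / (32 * (g : ℝ) ^ 3)) →
      (Finset.range g).image (fun d => (x d, d - x d)) = big g μ ×ˢ big g ν) := by
  have hgr : (1 : ℝ) ≤ g := by exact_mod_cast hg
  have hg0 : (0 : ℝ) < g := by linarith
  set W : ℕ → ℝ := fun d => μ (x d) * ν (d - x d) with hW
  set P := (Finset.range g).image (fun d => (x d, d - x d)) with hP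
  set S := Finset.range g ×ˢ Finset.range g with hS
  have hPS : P ⊆ S := by
    intro p hp
    rw [hP, Finset.mem_image] at hp
    obtain ⟨d, hd, rfl⟩ := hp
    rw [Finset.mem_range] at hd
    rw [hS, Finset.mem_product, Finset.mem_range, Finset.mem_range]
    have := hx d hd
    exact ⟨by simp only; omega, by simp only; omega⟩
  have hSsum : ∑ p ∈ S, μ p.1 * ν p.2 = 1 := by
    rw [hS, Finset.sum_product]
    simp only
    rw [Finset.sum_congr rfl (g := fun a => μ a) fun a _ => by
      rw [← Finset.mul_sum, hν, mul_one]]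
    exact hμ
  have hPsum : ∑ d ∈ Finset.range g, W d = ∑ p ∈ P, μ p.1 * ν p.2 := by
    rw [hP, Finset.sum_image]
    intro d hd d' hd' hdd
    rw [Finset.mem_coe, Finset.mem_range] at hd hd'
    simp only [Prod.mk.injEq] at hdd
    have := hx d hd
    have := hx d' hd'
    omega
  set ρ := ∑ p ∈ S \ P, μ p.1 * ν p.2 with hρ
  have hρs : ρ + ∑ d ∈ Finset.range g, W d = 1 := by
    rw [hPsum, ← hSsum]
    exact Finset.sum_sdiff hPS
  have hρ0 : 0 ≤ ρ := Finset.sum_nonneg fun p _ => mul_nonneg (hμ0 _) (hν0 _)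
  have hμ1 : ∀ a < g, μ a ≤ 1 := by
    intro a ha
    rw [← hμ]
    exact Finset.single_le_sum (fun b _ => hμ0 b) (Finset.mem_range.2 ha)
  have hν1 : ∀ a < g, ν a ≤ 1 := by
    intro a ha
    rw [← hν]
    exact Finset.single_le_sum (fun b _ => hν0 b) (Finset.mem_range.2 ha)
  have hterm : ∀ d < g, 1 - g * W d + (1 - g * W d) ^ 2 / (2 * g) ≤
      -Real.log (g * (μ (x d) * ν (d - x d))) := by
    intro d hd
    have h1 := hpos d hd
    have h2 := hx d hd
    have h3 : W d ≤ 1 := by
      have h4 := hμ1 (x d) (by omega)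
      have h5 := hν1 (d - x d) (by omega)
      have h6 : μ (x d) * ν (d - x d) ≤ 1 * 1 :=
        mul_le_mul h4 h5 h1.2.le (by norm_num)
      rw [hW]
      simp only
      linarith
    have h4 : 0 < W d := mul_pos h1.1 h1.2
    exact neg_log_ge hgr (mul_pos hg0 h4) (by nlinarith)
  have hsum1 : ∑ d ∈ Finset.range g, (1 - g * W d + (1 - g * W d) ^ 2 / (2 * g)) =
      g * ρ + ∑ d ∈ Finset.range g, (1 - g * W d) ^ 2 / (2 * g) := by
    rw [Finset.sum_add_distrib, Finset.sum_sub_distrib, ← Finset.mul_sum]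
    simp only [Finset.sum_const, Finset.card_range, nsmul_eq_mul, mul_one]
    have : (∑ d ∈ Finset.range g, W d) = 1 - ρ := by linarith
    rw [this]
    ring
  have hle : g * ρ + ∑ d ∈ Finset.range g, (1 - g * W d) ^ 2 / (2 * g) ≤
      ∑ d ∈ Finset.range g, -Real.log (g * (μ (x d) * ν (d - x d))) := by
    rw [← hsum1]
    exact Finset.sum_le_sum fun d hd => hterm d (Finset.mem_range.1 hd)
  have hsq0 : 0 ≤ ∑ d ∈ Finset.range g, (1 - g * W d) ^ 2 / (2 * g) :=
    Finset.sum_nonneg fun d _ => by positivity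
  refine ⟨le_trans (by positivity) hle, fun hL => ?_⟩
  have hL' := hle.trans_lt hL
  have hρ1 : ρ < 1 / (32 * (g : ℝ) ^ 4) := by
    have h1 : g * ρ < 1 / (32 * (g : ℝ) ^ 3) := by linarith
    rw [lt_div_iff₀ (by positivity)] at h1 ⊢
    calc ρ * (32 * (g : ℝ) ^ 4) = g * ρ * (32 * (g : ℝ) ^ 3) := by ring
      _ < 1 := h1
  have hWd : ∀ d < g, 3 / (4 * (g : ℝ)) < W d := by
    intro d hd
    have h1 : (1 - g * W d) ^ 2 / (2 * g) < 1 / (32 * (g : ℝ) ^ 3) := by
      have h2 : (1 - g * W d) ^ 2 / (2 * g) ≤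
          ∑ d ∈ Finset.range g, (1 - g * W d) ^ 2 / (2 * g) :=
        Finset.single_le_sum (f := fun d => (1 - g * W d) ^ 2 / (2 * g))
          (fun b _ => by positivity) (Finset.mem_range.2 hd)
      have h3 : 0 ≤ g * ρ := by positivity
      linarith
    have h2 : (1 - g * W d) ^ 2 < (1 / 4) ^ 2 := by
      rw [div_lt_div_iff₀ (by positivity) (by positivity)] at h1
      have h3 : (1 : ℝ) ≤ (g : ℝ) ^ 2 := one_le_pow₀ hgr
      have h4 : (1 - g * W d) ^ 2 * (16 * (g : ℝ) ^ 2) < 1 := by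
        have h5 : (1 - g * W d) ^ 2 * (32 * (g : ℝ) ^ 3) =
            (1 - g * W d) ^ 2 * (16 * (g : ℝ) ^ 2) * (2 * g) := by ring
        rw [h5, one_mul] at h1
        have h6 : (1 - g * W d) ^ 2 * (16 * (g : ℝ) ^ 2) * (2 * g) < 1 * (2 * g) := by linarith
        exact lt_of_mul_lt_mul_right h6 (by positivity)
      nlinarith [sq_nonneg (1 - g * W d)]
    have h3 := abs_lt_of_sq_lt_sq h2 (by norm_num)
    rw [abs_lt] at h3
    rw [div_lt_iff₀ (by positivity)]
    nlinarith [h3.2]
  apply Finset.Subset.antisymm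
  · intro p hp
    rw [hP, Finset.mem_image] at hp
    obtain ⟨d, hd, rfl⟩ := hp
    rw [Finset.mem_range] at hd
    have h1 := hWd d hd
    have h2 := hx d hd
    have h3 := hμ1 (x d) (by omega)
    have h4 := hν1 (d - x d) (by omega)
    have h5 := hpos d hd
    have h6 : 1 / (2 * (g : ℝ)) ≤ 3 / (4 * (g : ℝ)) := by
      rw [div_le_div_iff₀ (by positivity) (by positivity)]
      linarith
    have h7 : W d ≤ μ (x d) := by
      rw [hW]
      simp only
      nlinarith [h5.1]
    have h8 : W d ≤ ν (d - x d) := by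
      rw [hW]
      simp only
      nlinarith [h5.2]
    rw [Finset.mem_product, mem_big, mem_big]
    exact ⟨⟨by simp only; omega, by simp only; linarith⟩,
      ⟨by simp only; omega, by simp only; linarith⟩⟩
  · rintro ⟨a, b⟩ hp
    rw [Finset.mem_product, mem_big, mem_big] at hp
    obtain ⟨⟨ha, hμa⟩, hb, hνb⟩ := hp
    simp only at ha hμa hb hνb
    by_contra hnot
    have h1 : μ a * ν b ≤ ρ := by
      have h2 : (a, b) ∈ S \ P := by
        rw [Finset.mem_sdiff]
        refine ⟨?_, hnot⟩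
        rw [hS, Finset.mem_product]
        exact ⟨Finset.mem_range.2 ha, Finset.mem_range.2 hb⟩
      exact Finset.single_le_sum (f := fun p : ℕ × ℕ => μ p.1 * ν p.2)
        (fun p _ => mul_nonneg (hμ0 _) (hν0 _)) h2
    have h2 : 1 / (2 * (g : ℝ)) * (1 / (2 * (g : ℝ))) ≤ μ a * ν b :=
      mul_le_mul hμa hνb (by positivity) (hμ0 a)
    have h3 : 1 / (32 * (g : ℝ) ^ 4) ≤ 1 / (2 * (g : ℝ)) * (1 / (2 * (g : ℝ))) := by
      rw [div_mul_div_comm, one_mul, div_le_div_iff₀ (by positivity) (by positivity)]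
      have h4 : (1 : ℝ) ≤ (g : ℝ) ^ 2 := one_le_pow₀ hgr
      nlinarith
    linarith

end Pool.Agent.Helper72.PW
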