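import Pool.Agent.Helper72.PW.Class
import Pool.Agent.Helper72.PW.Gap

/-! The increments of the relative entropy from level to level. -/

namespace Pool.Agent.Helper72.PW

open Finset

variable {m g : ℕ → ℕ}

/-- how often `f` takes the value `a` below `N` -/
def cnt (f : ℕ → ℕ) (N a : ℕ) : ℕ := ((Finset.range N).filter fun k => f k = a).card

/-- `f` acts on the residues modulo `m j` -/
structure Loc (m : ℕ → ℕ) (f : ℕ → ℕ) : Prop where
  le : ∀ n, f n ≤ n
  mod : ∀ j n, f n % m j = f (n % m j)

/-- a splitting of every `n` -/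
structure Split (m : ℕ → ℕ) (f f' : ℕ → ℕ) : Prop where
  add : ∀ n, f n + f' n = n
  left : Loc m f
  right : Loc m f'

lemma sum_split {M : Type*} [AddCommMonoid M] (F : ℕ → M) (g m : ℕ) :
    ∑ n ∈ Finset.range (g * m), F n = ∑ k ∈ Finset.range m, ∑ d ∈ Finset.range g, F (k + d * m) := by
  induction g with
  | zero => simp
  | succ g ih =>
    rw [add_mul, one_mul, Finset.sum_range_add, ih, ← Finset.sum_add_distrib]
    refine Finset.sum_congr rfl fun k _ => ?_
    rw [Finset.sum_range_succ, add_comm (g * m) k]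

lemma cnt_pos (f : ℕ → ℕ) {N n : ℕ} (hn : n < N) : 0 < cnt f N (f n) := by
  unfold cnt
  rw [Finset.card_pos]
  exact ⟨n, Finset.mem_filter.2 ⟨Finset.mem_range.2 hn, rfl⟩⟩

lemma cnt_eq (f : ℕ → ℕ) (N a : ℕ) :
    cnt f N a = ∑ n ∈ Finset.range N, if f n = a then 1 else 0 := by
  unfold cnt
  rw [Finset.card_filter]

lemma Loc.lift_mod {f : ℕ → ℕ} (hf : Loc m f) (j : ℕ) {k : ℕ} (hk : k < m j)
    (d : ℕ) : f (k + d * m j) % m j = f k := by
  rw [hf.mod, Nat.add_mul_mod_self_right, Nat.mod_eq_of_lt hk]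

lemma cnt_split (h : Rad m g) {f : ℕ → ℕ} (hf : Loc m f) (j : ℕ) {a : ℕ} (ha : a < m j) :
    ∑ x ∈ Finset.range (g j), cnt f (m (j + 1)) (a + x * m j) = g j * cnt f (m j) a := by
  have h1 : ∑ x ∈ Finset.range (g j), cnt f (m (j + 1)) (a + x * m j) =
      ∑ n ∈ Finset.range (g j * m j), if f n % m j = a then 1 else 0 := by
    simp_rw [cnt_eq]
    rw [Finset.sum_comm, h.succ]
    refine Finset.sum_congr rfl fun n hn => ?_
    rw [Finset.mem_range] at hn
    by_cases e : f n % m j = a
    · rw [if_pos e, Finset.sum_eq_single (f n / m j)]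
      · rw [if_pos]
        have := Nat.div_add_mod (f n) (m j)
        rw [e] at this
        rw [mul_comm, add_comm]
        exact this.symm
      · intro x _ hx
        rw [if_neg]
        intro e1
        apply hx
        rw [e1, Nat.add_mul_div_right _ _ (h.pos j), Nat.div_eq_of_lt ha, zero_add]
      · intro hx
        exfalso
        apply hx
        rw [Finset.mem_range]
        refine Nat.div_lt_of_lt_mul ?_
        rw [mul_comm]
        exact (hf.le n).trans_lt hn
    · rw [if_neg e]
      refine Finset.sum_eq_zero fun x _ => ?_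
      rw [if_neg]
      intro e1
      apply e
      rw [e1, Nat.add_mul_mod_self_right, Nat.mod_eq_of_lt ha]
  rw [h1, sum_split, cnt_eq, Finset.mul_sum]
  refine Finset.sum_congr rfl fun k hk => ?_
  rw [Finset.mem_range] at hk
  rw [Finset.sum_congr rfl (g := fun _ => if f k = a then 1 else 0) fun d _ => by
    rw [hf.lift_mod j hk]]
  rw [Finset.sum_const, Finset.card_range, smul_eq_mul]

/-- conditional distribution of the digit number `j` -/
noncomputable def mu (m g : ℕ → ℕ) (f : ℕ → ℕ) (j a x : ℕ) : ℝ :=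
  (cnt f (m (j + 1)) (a + x * m j) : ℝ) / (g j * cnt f (m j) a)

lemma mu_nonneg (m g f : ℕ → ℕ) (j a x : ℕ) : 0 ≤ mu m g f j a x := by
  unfold mu
  positivity

lemma mu_sum (h : Rad m g) {f : ℕ → ℕ} (hf : Loc m f) (j : ℕ) {k : ℕ} (hk : k < m j) :
    ∑ x ∈ Finset.range (g j), mu m g f j (f k) x = 1 := by
  have h1 := cnt_split h hf j (a := f k) ((hf.le k).trans_lt hk)
  have h2 := cnt_pos f hk
  have h3 : (0 : ℝ) < g j := by
    have := h.two j
    exact_mod_cast (by omega : 0 < g j)
  have h4 : (0 : ℝ) < cnt f (m j) (f k) := by exact_mod_cast h2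
  unfold mu
  rw [← Finset.sum_div, ← Nat.cast_sum, h1, Nat.cast_mul]
  exact div_self (mul_pos h3 h4).ne'

lemma mu_eq (h : Rad m g) {f : ℕ → ℕ} (hf : Loc m f) (j : ℕ) {k : ℕ} (hk : k < m j) (d : ℕ) :
    (cnt f (m (j + 1)) (f (k + d * m j)) : ℝ) =
      g j * cnt f (m j) (f k) * mu m g f j (f k) (f (k + d * m j) / m j) := by
  have h2 := cnt_pos f hk
  have h3 : (0 : ℝ) < g j := by
    have := h.two j
    exact_mod_cast (by omega : 0 < g j)
  have h4 : (0 : ℝ) < cnt f (m j) (f k) := by exact_mod_cast h2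
  have h5 : f k + f (k + d * m j) / m j * m j = f (k + d * m j) := by
    have := Nat.div_add_mod (f (k + d * m j)) (m j)
    rw [hf.lift_mod j hk] at this
    rw [mul_comm, add_comm]
    exact this
  unfold mu
  rw [h5, mul_div_cancel₀ _ (mul_pos h3 h4).ne']

/-- pointwise relative entropy -/
noncomputable def phi (m f f' : ℕ → ℕ) (j n : ℕ) : ℝ :=
  Real.log (m j) - Real.log (cnt f (m j) (f n)) - Real.log (cnt f' (m j) (f' n))

variable {f f' : ℕ → ℕ}

lemma Split.digit (h : Rad m g) (hs : Split m f f') (j : ℕ) {k : ℕ} (hk : k < m j) (d : ℕ) :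
    f (k + d * m j) / m j ≤ d ∧ f' (k + d * m j) / m j = d - f (k + d * m j) / m j := by
  have h1 := Nat.div_add_mod (f (k + d * m j)) (m j)
  have h2 := Nat.div_add_mod (f' (k + d * m j)) (m j)
  rw [hs.left.lift_mod j hk] at h1
  rw [hs.right.lift_mod j hk] at h2
  have h3 := hs.add (k + d * m j)
  have h4 := hs.add k
  have h5 : m j * (f (k + d * m j) / m j + f' (k + d * m j) / m j) = m j * d := by
    rw [mul_add]
    have : d * m j = m j * d := mul_comm _ _
    omega
  have h6 := Nat.eq_of_mul_eq_mul_left (h.pos j) h5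
  exact ⟨Nat.le.intro h6, (Nat.sub_eq_of_eq_add' h6.symm).symm⟩

lemma phi_step (h : Rad m g) (hs : Split m f f') (j : ℕ) {k : ℕ} (hk : k < m j) {d : ℕ}
    (hd : d < g j) :
    0 < mu m g f j (f k) (f (k + d * m j) / m j) ∧
    0 < mu m g f' j (f' k) (d - f (k + d * m j) / m j) ∧
    phi m f f' (j + 1) (k + d * m j) = phi m f f' j k +
      -Real.log (g j * (mu m g f j (f k) (f (k + d * m j) / m j) *
        mu m g f' j (f' k) (d - f (k + d * m j) / m j))) := by
  have hn : k + d * m j < m (j + 1) := by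
    rw [h.succ]
    calc k + d * m j < m j + d * m j := by omega
      _ = (d + 1) * m j := by ring
      _ ≤ g j * m j := Nat.mul_le_mul_right _ hd
  have h1 := mu_eq h hs.left j hk d
  have h2 := mu_eq h hs.right j hk d
  rw [(hs.digit h j hk d).2] at h2
  have hg : (0 : ℝ) < g j := by
    have := h.two j
    exact_mod_cast (by omega : 0 < g j)
  have hm : (0 : ℝ) < m j := by exact_mod_cast h.pos j
  have hc : (0 : ℝ) < cnt f (m j) (f k) := by exact_mod_cast cnt_pos f hk
  have hc' : (0 : ℝ) < cnt f' (m j) (f' k) := by exact_mod_cast cnt_pos f' hk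
  have hp : (0 : ℝ) < cnt f (m (j + 1)) (f (k + d * m j)) := by exact_mod_cast cnt_pos f hn
  have hp' : (0 : ℝ) < cnt f' (m (j + 1)) (f' (k + d * m j)) := by exact_mod_cast cnt_pos f' hn
  set u := mu m g f j (f k) (f (k + d * m j) / m j) with hu
  set v := mu m g f' j (f' k) (d - f (k + d * m j) / m j) with hv
  have hu0 : 0 < u := by
    rw [h1] at hp
    exact pos_of_mul_pos_right hp (by positivity)
  have hv0 : 0 < v := by
    rw [h2] at hp'
    exact pos_of_mul_pos_right hp' (by positivity)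
  refine ⟨hu0, hv0, ?_⟩
  unfold phi
  rw [h1, h2, h.succ, Nat.cast_mul, Real.log_mul hg.ne' hm.ne',
    Real.log_mul (mul_pos hg hc).ne' hu0.ne', Real.log_mul (mul_pos hg hc').ne' hv0.ne',
    Real.log_mul hg.ne' hc.ne', Real.log_mul hg.ne' hc'.ne',
    Real.log_mul hg.ne' (mul_pos hu0 hv0).ne', Real.log_mul hu0.ne' hv0.ne']
  ring

/-- the set of likely digits after `a` -/
noncomputable def TT (m g f : ℕ → ℕ) (j a : ℕ) : Finset ℕ := big (g j) (mu m g f j a)

/-- the digits after `k` are distributed like independent digits -/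
def Good (m g f f' : ℕ → ℕ) (j k : ℕ) : Prop :=
  (Finset.range (g j)).image (fun d => (f (k + d * m j) / m j, d - f (k + d * m j) / m j)) =
    TT m g f j (f k) ×ˢ TT m g f' j (f' k)

open Classical in
/-- the indicator of the places which are not good -/
noncomputable def bad (m g f f' : ℕ → ℕ) (j k : ℕ) : ℝ := if Good m g f f' j k then 0 else 1

lemma bad_nonneg (m g f f' : ℕ → ℕ) (j k : ℕ) : 0 ≤ bad m g f f' j k := by
  unfold bad
  split_ifs
  · exact le_rfl
  · exact zero_le_one

lemma gap_step (h : Rad m g) (hs : Split m f f') (j : ℕ) {Q : ℕ} (hQ : g j ≤ Q) {k : ℕ}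
    (hk : k < m j) :
    g j * phi m f f' j k + bad m g f f' j k / (32 * (Q : ℝ) ^ 3) ≤
      ∑ d ∈ Finset.range (g j), phi m f f' (j + 1) (k + d * m j) := by
  have hg : 1 ≤ g j := by have := h.two j; omega
  have hgr : (0 : ℝ) < g j := by exact_mod_cast hg
  have hQr : (g j : ℝ) ≤ Q := by exact_mod_cast hQ
  have hG := gap hg (mu m g f j (f k)) (mu m g f' j (f' k)) (fun x => mu_nonneg _ _ _ _ _ _)
    (fun x => mu_nonneg _ _ _ _ _ _) (mu_sum h hs.left j hk) (mu_sum h hs.right j hk)
    (fun d => f (k + d * m j) / m j) (fun d _ => (hs.digit h j hk d).1)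
    (fun d hd => ⟨(phi_step h hs j hk hd).1, (phi_step h hs j hk hd).2.1⟩)
  have h1 : ∑ d ∈ Finset.range (g j), phi m f f' (j + 1) (k + d * m j) =
      g j * phi m f f' j k + ∑ d ∈ Finset.range (g j),
        -Real.log (g j * (mu m g f j (f k) (f (k + d * m j) / m j) *
          mu m g f' j (f' k) (d - f (k + d * m j) / m j))) := by
    rw [Finset.sum_congr rfl fun d hd =>
      (phi_step h hs j hk (Finset.mem_range.1 hd)).2.2, Finset.sum_add_distrib,
      Finset.sum_const, Finset.card_range, nsmul_eq_mul]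
  rw [h1]
  have h2 : bad m g f f' j k / (32 * (Q : ℝ) ^ 3) ≤ ∑ d ∈ Finset.range (g j),
        -Real.log (g j * (mu m g f j (f k) (f (k + d * m j) / m j) *
          mu m g f' j (f' k) (d - f (k + d * m j) / m j))) := by
    by_cases hgood : Good m g f f' j k
    · unfold bad
      rw [if_pos hgood, zero_div]
      exact hG.1
    · unfold bad
      rw [if_neg hgood]
      by_contra hlt
      rw [not_le] at hlt
      refine hgood (hG.2 (hlt.trans_le ?_))
      refine one_div_le_one_div_of_le (by positivity) ?_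
      have : (g j : ℝ) ^ 3 ≤ (Q : ℝ) ^ 3 := pow_le_pow_left₀ hgr.le hQr 3
      linarith
  linarith

/-- the number of bad places of `n` below `J` -/
noncomputable def NN (m g f f' : ℕ → ℕ) (J n : ℕ) : ℝ :=
  ∑ j ∈ Finset.range J, bad m g f f' j (n % m j)

lemma NN_nonneg (m g f f' : ℕ → ℕ) (J n : ℕ) : 0 ≤ NN m g f f' J n :=
  Finset.sum_nonneg fun _ _ => bad_nonneg _ _ _ _ _ _

/-- Many bad places make the relative entropy large. -/
theorem energy (h : Rad m g) (hs : Split m f f') {Q : ℕ} (hQ : ∀ j, g j ≤ Q) (J : ℕ) :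
    (∑ n ∈ Finset.range (m J), NN m g f f' J n) ≤
      32 * (Q : ℝ) ^ 4 * ∑ n ∈ Finset.range (m J), phi m f f' J n := by
  have hQ0 : (0 : ℝ) < Q := by
    have h1 := h.two 0
    have h2 := hQ 0
    exact_mod_cast (by omega : 0 < Q)
  induction J with
  | zero =>
    rw [h.one, Finset.sum_range_one, Finset.sum_range_one]
    have e1 : NN m g f f' 0 0 = 0 := by unfold NN; rw [Finset.sum_range_zero]
    have e2 : phi m f f' 0 0 = 0 := by
      unfold phi cnt
      rw [h.one, Finset.range_one]
      simp [Finset.filter_singleton]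
    rw [e1, e2, mul_zero]
  | succ J ih =>
    have hL : ∑ n ∈ Finset.range (m (J + 1)), NN m g f f' (J + 1) n =
        g J * (∑ n ∈ Finset.range (m J), NN m g f f' J n) +
        g J * ∑ k ∈ Finset.range (m J), bad m g f f' J k := by
      rw [h.succ, sum_split, Finset.mul_sum, Finset.mul_sum, ← Finset.sum_add_distrib]
      refine Finset.sum_congr rfl fun k hk => ?_
      rw [Finset.mem_range] at hk
      rw [Finset.sum_congr rfl (g := fun _ => NN m g f f' J k + bad m g f f' J k) fun d _ => ?_]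
      · rw [Finset.sum_const, Finset.card_range, nsmul_eq_mul, mul_add]
      · unfold NN
        rw [Finset.sum_range_succ, Nat.add_mul_mod_self_right, Nat.mod_eq_of_lt hk]
        congr 1
        refine Finset.sum_congr rfl fun j hj => ?_
        rw [Finset.mem_range] at hj
        obtain ⟨c, hc⟩ := h.dvd_le hj.le
        rw [hc, show k + d * (m j * c) = k + d * c * m j by ring, Nat.add_mul_mod_self_right]
    have hR : (g J * ∑ n ∈ Finset.range (m J), phi m f f' J n) +
        (∑ k ∈ Finset.range (m J), bad m g f f' J k) / (32 * (Q : ℝ) ^ 3) ≤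
        ∑ n ∈ Finset.range (m (J + 1)), phi m f f' (J + 1) n := by
      rw [h.succ, sum_split, Finset.mul_sum, Finset.sum_div, ← Finset.sum_add_distrib]
      exact Finset.sum_le_sum fun k hk => gap_step h hs J (hQ J) (Finset.mem_range.1 hk)
    rw [hL]
    have hg : (0 : ℝ) < g J := by
      have := h.two J
      exact_mod_cast (by omega : 0 < g J)
    have hgQ : (g J : ℝ) ≤ Q := by exact_mod_cast hQ J
    have hB : 0 ≤ ∑ k ∈ Finset.range (m J), bad m g f f' J k :=
      Finset.sum_nonneg fun k _ => bad_nonneg _ _ _ _ _ _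
    have h1 := mul_le_mul_of_nonneg_left ih hg.le
    have h2 := mul_le_mul_of_nonneg_left hR (by positivity : (0 : ℝ) ≤ 32 * (Q : ℝ) ^ 4)
    have h3 : 32 * (Q : ℝ) ^ 4 * ((g J * ∑ n ∈ Finset.range (m J), phi m f f' J n) +
        (∑ k ∈ Finset.range (m J), bad m g f f' J k) / (32 * (Q : ℝ) ^ 3)) =
        g J * (32 * (Q : ℝ) ^ 4 * ∑ n ∈ Finset.range (m J), phi m f f' J n) +
        Q * ∑ k ∈ Finset.range (m J), bad m g f f' J k := by
      field_simp
    rw [h3] at h2
    have h4 := mul_le_mul_of_nonneg_right hgQ hB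
    linarith

end Pool.Agent.Helper72.PW
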