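import Mathlib

/-! Pairs of sets of digits whose sums are the digits below `g`, each once. -/

namespace Pool.Agent.Helper72.PW

open Finset

/-- every integer below `g` is in exactly one way a sum of an element of `X` and an element of
`Y`, and all these sums are below `g` -/
def Tile (g : ℕ) (X Y : Finset ℕ) : Prop :=
  (X ×ˢ Y).image (fun p => p.1 + p.2) = Finset.range g ∧
    Set.InjOn (fun p : ℕ × ℕ => p.1 + p.2) ((X ×ˢ Y : Finset (ℕ × ℕ)) : Set (ℕ × ℕ))

/-- sums of two elements of `X` -/
def sums (X : Finset ℕ) : Finset ℕ := (X ×ˢ X).image fun p => p.1 + p.2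

lemma Tile.symm {g : ℕ} {X Y : Finset ℕ} (h : Tile g X Y) : Tile g Y X := by
  constructor
  · rw [← h.1]
    ext d
    simp only [Finset.mem_image, Finset.mem_product, Prod.exists]
    constructor
    · rintro ⟨a, b, ⟨ha, hb⟩, rfl⟩
      exact ⟨b, a, ⟨hb, ha⟩, add_comm _ _⟩
    · rintro ⟨a, b, ⟨ha, hb⟩, rfl⟩
      exact ⟨b, a, ⟨hb, ha⟩, add_comm _ _⟩
  · rintro ⟨a, b⟩ hp ⟨a', b'⟩ hp' hab
    rw [Finset.mem_coe, Finset.mem_product] at hp hp'
    simp only at hab hp hp'
    have h1 : (b, a) = (b', a') := h.2 (by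
        rw [Finset.mem_coe, Finset.mem_product]; exact ⟨hp.2, hp.1⟩) (by
        rw [Finset.mem_coe, Finset.mem_product]; exact ⟨hp'.2, hp'.1⟩) (by
        simp only; omega)
    simp only [Prod.mk.injEq] at h1 ⊢
    exact ⟨h1.2, h1.1⟩

lemma Tile.card {g : ℕ} {X Y : Finset ℕ} (h : Tile g X Y) : X.card * Y.card = g := by
  rw [← Finset.card_product, ← Finset.card_image_of_injOn h.2, h.1, Finset.card_range]

lemma tile_of_image {g : ℕ} {X Y : Finset ℕ} (x : ℕ → ℕ) (hx : ∀ d < g, x d ≤ d)
    (h : (Finset.range g).image (fun d => (x d, d - x d)) = X ×ˢ Y) : Tile g X Y := by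
  unfold Tile
  rw [← h]
  constructor
  · rw [Finset.image_image]
    ext d
    simp only [Finset.mem_image, Finset.mem_range, Function.comp_apply]
    constructor
    · rintro ⟨e, he, rfl⟩
      have := hx e he
      omega
    · intro hd
      exact ⟨d, hd, by have := hx d hd; omega⟩
  · rintro p hp p' hp' hpp
    rw [Finset.mem_coe, Finset.mem_image] at hp hp'
    obtain ⟨d, hd, rfl⟩ := hp
    obtain ⟨d', hd', rfl⟩ := hp'
    rw [Finset.mem_range] at hd hd'
    have h1 := hx d hd
    have h2 := hx d' hd'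
    simp only at hpp
    have h3 : d = d' := by omega
    rw [h3]

lemma Tile.unique_sub {g : ℕ} (hg : 1 ≤ g) {X Y Z : Finset ℕ} (h : Tile g X Y)
    (h' : Tile g X Z) : Y ⊆ Z := by
  have h0 : ∀ {W : Finset ℕ}, Tile g X W → 0 ∈ X ∧ 0 ∈ W := by
    intro W hW
    have h1 : 0 ∈ (X ×ˢ W).image (fun p => p.1 + p.2) := by
      rw [hW.1, Finset.mem_range]; omega
    rw [Finset.mem_image] at h1
    obtain ⟨⟨a, b⟩, hp, hab⟩ := h1
    rw [Finset.mem_product] at hp
    simp only at hab hp
    have ha : a = 0 := by omega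
    have hb : b = 0 := by omega
    subst ha
    subst hb
    exact hp
  have key : ∀ y : ℕ, (y ∈ Y ↔ y ∈ Z) := by
    intro y
    induction y using Nat.strong_induction_on with
    | _ y ih =>
      have step : ∀ {V W : Finset ℕ}, Tile g X V → Tile g X W → (∀ z < y, z ∈ V ↔ z ∈ W) →
          y ∈ V → y ∈ W := by
        intro V W hV hW hVW hy
        have h1 : y ∈ Finset.range g := by
          rw [← hV.1, Finset.mem_image]
          exact ⟨(0, y), Finset.mem_product.2 ⟨(h0 hV).1, hy⟩, by simp⟩
        rw [← hW.1, Finset.mem_image] at h1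
        obtain ⟨⟨a, b⟩, hp, hab⟩ := h1
        rw [Finset.mem_product] at hp
        simp only at hab hp
        rcases Nat.eq_zero_or_pos a with ha | ha
        · subst ha
          have hb : b = y := by omega
          rw [← hb]
          exact hp.2
        · have hb : b ∈ V := (hVW b (by omega)).2 hp.2
          have h2 : ((a, b) : ℕ × ℕ) = (0, y) := hV.2 (by
            rw [Finset.mem_coe, Finset.mem_product]; exact ⟨hp.1, hb⟩) (by
            rw [Finset.mem_coe, Finset.mem_product]; exact ⟨(h0 hV).1, hy⟩) (by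
            simp only; omega)
          simp only [Prod.mk.injEq] at h2
          omega
      exact ⟨step h h' ih, step h' h fun z hz => (ih z hz).symm⟩
  exact fun y hy => (key y).1 hy

lemma Tile.unique {g : ℕ} (hg : 1 ≤ g) {X Y Z : Finset ℕ} (h : Tile g X Y) (h' : Tile g X Z) :
    Y = Z :=
  Finset.Subset.antisymm (h.unique_sub hg h') (h'.unique_sub hg h)

lemma card_sums_le (X : Finset ℕ) : (sums X).card ≤ X.card ^ 2 := by
  unfold sums
  rw [sq, ← Finset.card_product]
  exact Finset.card_image_le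

lemma card_sums_lt {X : Finset ℕ} (h : 2 ≤ X.card) : (sums X).card + 1 ≤ X.card ^ 2 := by
  obtain ⟨a, ha, b, hb, hab⟩ := Finset.one_lt_card.1 (by omega : 1 < X.card)
  have h1 : sums X ⊆ ((X ×ˢ X).erase (a, b)).image fun p => p.1 + p.2 := by
    intro s hs
    unfold sums at hs
    rw [Finset.mem_image] at hs
    obtain ⟨p, hp, rfl⟩ := hs
    rw [Finset.mem_image]
    by_cases hpab : p = (a, b)
    · subst hpab
      refine ⟨(b, a), ?_, add_comm _ _⟩
      rw [Finset.mem_erase]
      refine ⟨fun h2 => ?_, Finset.mem_product.2 ⟨hb, ha⟩⟩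
      simp only [Prod.mk.injEq] at h2
      exact hab h2.2
    · exact ⟨p, Finset.mem_erase.2 ⟨hpab, hp⟩, rfl⟩
  have h2 : (sums X).card ≤ ((X ×ˢ X).erase (a, b)).card :=
    (Finset.card_le_card h1).trans Finset.card_image_le
  rw [Finset.card_erase_of_mem (Finset.mem_product.2 ⟨ha, hb⟩), Finset.card_product] at h2
  have h3 : 0 < X.card * X.card := Nat.mul_pos (by omega) (by omega)
  rw [sq]
  omega

lemma card_sums_range {g : ℕ} {X : Finset ℕ} (h : X ⊆ Finset.range g) :
    (sums X).card ≤ 2 * g := by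
  have h1 : sums X ⊆ Finset.range (2 * g) := by
    intro s hs
    unfold sums at hs
    rw [Finset.mem_image] at hs
    obtain ⟨p, hp, rfl⟩ := hs
    rw [Finset.mem_product] at hp
    have h2 := Finset.mem_range.1 (h hp.1)
    have h3 := Finset.mem_range.1 (h hp.2)
    rw [Finset.mem_range]
    omega
  simpa using Finset.card_le_card h1

lemma Tile.sums_mul {g : ℕ} (hg : 2 ≤ g) {X Y : Finset ℕ} (h : Tile g X Y) :
    (sums X).card * (sums Y).card + 1 ≤ g ^ 2 := by
  have hc := h.card
  have hX0 : 1 ≤ X.card := by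
    rcases Nat.eq_zero_or_pos X.card with h0 | h0
    · rw [h0, zero_mul] at hc; omega
    · exact h0
  have hY0 : 1 ≤ Y.card := by
    rcases Nat.eq_zero_or_pos Y.card with h0 | h0
    · rw [h0, mul_zero] at hc; omega
    · exact h0
  have hg2 : g ^ 2 = X.card ^ 2 * Y.card ^ 2 := by rw [← hc, mul_pow]
  rcases Nat.lt_or_ge X.card 2 with hX | hX
  · have hX1 : X.card = 1 := by omega
    have hY2 : 2 ≤ Y.card := by
      rw [hX1, one_mul] at hc; omega
    have h1 := card_sums_le X
    have h2 := card_sums_lt hY2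
    rw [hg2, hX1] at *
    calc (sums X).card * (sums Y).card + 1 ≤ 1 * (sums Y).card + 1 := by
          have := Nat.mul_le_mul_right (sums Y).card (show (sums X).card ≤ 1 by simpa using h1)
          omega
      _ ≤ 1 ^ 2 * Y.card ^ 2 := by omega
  · have h1 := card_sums_lt hX
    have h2 := card_sums_le Y
    rw [hg2]
    have hY1 : 1 ≤ Y.card ^ 2 := Nat.one_le_pow _ _ hY0
    calc (sums X).card * (sums Y).card + 1 ≤ (sums X).card * Y.card ^ 2 + Y.card ^ 2 := by
          have := Nat.mul_le_mul_left (sums X).card h2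
          omega
      _ = ((sums X).card + 1) * Y.card ^ 2 := by ring
      _ ≤ X.card ^ 2 * Y.card ^ 2 := Nat.mul_le_mul_right _ h1

end Pool.Agent.Helper72.PW
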