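import Pool.Agent.Helper72.PW.Levels

/-! Entropy bounds and the comparison of the two sums. -/

namespace Pool.Agent.Helper72.PW

open Finset

variable {m g f f' : ℕ → ℕ}

/-- The entropy of `f` is at most the logarithm of the number of values. -/
lemma entropy_le (f : ℕ → ℕ) {M : ℕ} (hM : 0 < M) :
    ∑ n ∈ Finset.range M, -Real.log (cnt f M (f n)) ≤
      M * (Real.log (((Finset.range M).image f).card : ℝ) - Real.log M) := by
  have hMr : (0 : ℝ) < M := by exact_mod_cast hM
  set c := ((Finset.range M).image f).card with hc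
  have hc0 : 0 < c := by
    rw [hc, Finset.card_pos]
    exact ⟨f 0, Finset.mem_image.2 ⟨0, Finset.mem_range.2 hM, rfl⟩⟩
  have hcr : (0 : ℝ) < c := by exact_mod_cast hc0
  have hsum : ∑ n ∈ Finset.range M, (1 : ℝ) / cnt f M (f n) = c := by
    have e0 : ∑ n ∈ Finset.range M, (1 : ℝ) / cnt f M (f n) =
        ∑ b ∈ (Finset.range M).image f, (cnt f M b) • ((1 : ℝ) / cnt f M b) :=
      Finset.sum_comp (fun b => (1 : ℝ) / cnt f M b) f
    rw [e0]
    rw [Finset.sum_congr rfl (g := fun _ => (1 : ℝ)) fun b hb => ?_]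
    · rw [Finset.sum_const, nsmul_eq_mul, mul_one]
    · rw [Finset.mem_image] at hb
      obtain ⟨n, hn, rfl⟩ := hb
      have h1 : (0 : ℝ) < cnt f M (f n) := by
        exact_mod_cast cnt_pos f (Finset.mem_range.1 hn)
      rw [nsmul_eq_mul]
      field_simp
  have hterm : ∀ n ∈ Finset.range M, -Real.log (cnt f M (f n)) ≤
      (Real.log c - Real.log M) + ((M : ℝ) / c * (1 / cnt f M (f n)) - 1) := by
    intro n hn
    have h1 : (0 : ℝ) < cnt f M (f n) := by
      exact_mod_cast cnt_pos f (Finset.mem_range.1 hn)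
    have h2 := Real.log_le_sub_one_of_pos
      (show 0 < (M : ℝ) / c * (1 / cnt f M (f n)) by positivity)
    rw [Real.log_mul (by positivity) (by positivity), Real.log_div hMr.ne' hcr.ne',
      Real.log_div one_ne_zero h1.ne', Real.log_one] at h2
    linarith
  refine (Finset.sum_le_sum hterm).trans ?_
  rw [Finset.sum_add_distrib, Finset.sum_sub_distrib, Finset.sum_sub_distrib, ← Finset.mul_sum,
    hsum]
  simp only [Finset.sum_const, Finset.card_range, nsmul_eq_mul, mul_one]
  rw [div_mul_cancel₀ _ hcr.ne']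
  linarith

lemma phi_sum_le (f f' : ℕ → ℕ) (J : ℕ) (hM : 0 < m J) :
    ∑ n ∈ Finset.range (m J), phi m f f' J n ≤
      m J * (Real.log (((Finset.range (m J)).image f).card : ℝ) +
        Real.log (((Finset.range (m J)).image f').card : ℝ) - Real.log (m J)) := by
  have h1 := entropy_le f hM
  have h2 := entropy_le f' hM
  have h3 : ∑ n ∈ Finset.range (m J), phi m f f' J n = m J * Real.log (m J) +
      ∑ n ∈ Finset.range (m J), -Real.log (cnt f (m J) (f n)) +
      ∑ n ∈ Finset.range (m J), -Real.log (cnt f' (m J) (f' n)) := by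
    unfold phi
    rw [Finset.sum_neg_distrib, Finset.sum_neg_distrib, Finset.sum_sub_distrib,
      Finset.sum_sub_distrib, Finset.sum_const, Finset.card_range, nsmul_eq_mul]
    ring
  rw [h3]
  linarith

/-- Jensen -/
lemma exp_sum_ge (N : ℕ → ℝ) {M : ℕ} (hM : 0 < M) (l : ℝ) :
    M * Real.exp (-(l * ((∑ n ∈ Finset.range M, N n) / M))) ≤
      ∑ n ∈ Finset.range M, Real.exp (-(l * N n)) := by
  have hMr : (0 : ℝ) < M := by exact_mod_cast hM
  set T := ∑ n ∈ Finset.range M, N n with hT
  have hterm : ∀ n ∈ Finset.range M, Real.exp (-(l * (T / M))) * (1 - l * (N n - T / M)) ≤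
      Real.exp (-(l * N n)) := by
    intro n _
    have h1 : Real.exp (-(l * N n)) = Real.exp (-(l * (T / M))) *
        Real.exp (-(l * (N n - T / M))) := by
      rw [← Real.exp_add]
      congr 1
      ring
    rw [h1]
    refine mul_le_mul_of_nonneg_left ?_ (Real.exp_pos _).le
    have := Real.add_one_le_exp (-(l * (N n - T / M)))
    linarith
  refine le_trans (le_of_eq ?_) (Finset.sum_le_sum hterm)
  rw [← Finset.mul_sum, Finset.sum_sub_distrib, ← Finset.mul_sum, Finset.sum_sub_distrib, ← hT]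
  simp only [Finset.sum_const, Finset.card_range, nsmul_eq_mul, mul_one]
  have : (M : ℝ) * (T / M) = T := mul_div_cancel₀ _ hMr.ne'
  rw [this]
  ring

/-- the sets of likely digits along `a` -/
noncomputable def TS (m g f : ℕ → ℕ) (J a : ℕ) : Fin J → Finset ℕ := fun j => TT m g f j (a % m j)

lemma TS_mem (m g f : ℕ → ℕ) (J a : ℕ) : TS m g f J a ∈ seqs g J := by
  rw [mem_seqs]
  intro j x hx
  unfold TS TT at hx
  rw [mem_big] at hx
  exact Finset.mem_range.2 hx.1

/-- the weight of a pair -/
noncomputable def pw (w : ℝ) (m g f f' : ℕ → ℕ) (J a b : ℕ) : ℝ :=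
  wt w m (TS m g f J a) a * wt w m (TS m g f' J b) b *
    ∏ j : Fin J, rho w (g j) (TS m g f J a j) (TS m g f' J b j)

lemma pw_nonneg {w : ℝ} (hw : 0 ≤ w) (m g f f' : ℕ → ℕ) (J a b : ℕ) :
    0 ≤ pw w m g f f' J a b :=
  mul_nonneg (mul_nonneg (wt_nonneg hw _ _ _) (wt_nonneg hw _ _ _))
    (Finset.prod_nonneg fun _ _ => rho_nonneg hw _ _ _)

lemma w_le_ite {w : ℝ} (hw1 : w ≤ 1) (p : Prop) [Decidable p] : w ≤ if p then (1 : ℝ) else w := by
  split_ifs
  · exact hw1
  · exact le_rfl

lemma exp_NN_le (h : Rad m g) (hs : Split m f f') {w : ℝ} (hw : 0 < w) (hw1 : w ≤ 1) (J n : ℕ) :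
    Real.exp (-(-(3 * Real.log w) * NN m g f f' J n)) ≤ pw w m g f f' J (f n) (f' n) := by
  classical
  have h1 : Real.exp (-(-(3 * Real.log w) * NN m g f f' J n)) =
      ∏ j : Fin J, Real.exp (3 * Real.log w * bad m g f f' j (n % m j)) := by
    rw [← Real.exp_sum, ← Finset.mul_sum]
    unfold NN
    rw [Finset.sum_range]
    congr 1
    ring
  rw [h1]
  unfold pw wt
  rw [← Finset.prod_mul_distrib, ← Finset.prod_mul_distrib]
  refine Finset.prod_le_prod (fun j _ => (Real.exp_pos _).le) fun j _ => ?_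
  have hwA := w_le_ite hw1 (dg m j (f n) ∈ TS m g f J (f n) j)
  have hwB := w_le_ite hw1 (dg m j (f' n) ∈ TS m g f' J (f' n) j)
  have hwC : w ≤ rho w (g j) (TS m g f J (f n) j) (TS m g f' J (f' n) j) := by
    unfold rho
    exact w_le_ite hw1 _
  by_cases hgood : Good m g f f' j (n % m j)
  · have hb : bad m g f f' j (n % m j) = 0 := by
      unfold bad
      rw [if_pos hgood]
    rw [hb, mul_zero, Real.exp_zero]
    have hk : n % m j < m j := Nat.mod_lt _ (h.pos _)
    have hd : dg m j n < g j := dg_lt h j n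
    have e1 : dg m j (f n) = f (n % m j + dg m j n * m j) / m j := by
      rw [← mod_succ h]
      unfold dg
      rw [hs.left.mod]
    have e2 : dg m j (f' n) = dg m j n - f (n % m j + dg m j n * m j) / m j := by
      rw [← (hs.digit h j hk (dg m j n)).2, ← mod_succ h]
      unfold dg
      rw [hs.right.mod]
    have e3 : TS m g f J (f n) j = TT m g f j (f (n % m j)) := by
      unfold TS
      rw [hs.left.mod]
    have e4 : TS m g f' J (f' n) j = TT m g f' j (f' (n % m j)) := by
      unfold TS
      rw [hs.right.mod]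
    have hmem : (f (n % m j + dg m j n * m j) / m j,
        dg m j n - f (n % m j + dg m j n * m j) / m j) ∈
        TT m g f j (f (n % m j)) ×ˢ TT m g f' j (f' (n % m j)) := by
      rw [← show (Finset.range (g j)).image (fun d => (f (n % m j + d * m j) / m j,
        d - f (n % m j + d * m j) / m j)) = TT m g f j (f (n % m j)) ×ˢ
        TT m g f' j (f' (n % m j)) from hgood]
      exact Finset.mem_image.2 ⟨dg m j n, Finset.mem_range.2 hd, rfl⟩
    rw [Finset.mem_product] at hmem
    have hT : Tile (g j) (TT m g f j (f (n % m j))) (TT m g f' j (f' (n % m j))) :=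
      tile_of_image (fun d => f (n % m j + d * m j) / m j)
        (fun d _ => (hs.digit h j hk d).1) hgood
    rw [e3, e4, e1, e2]
    unfold rho
    rw [if_pos hmem.1, if_pos hmem.2, if_pos hT, one_mul, one_mul]
  · have hb : bad m g f f' j (n % m j) = 1 := by
      unfold bad
      rw [if_neg hgood]
    have e1 : Real.exp (3 * Real.log w * 1) = w * w * w := by
      rw [mul_one, show 3 * Real.log w = Real.log w + Real.log w + Real.log w by ring,
        Real.exp_add, Real.exp_add, Real.exp_log hw]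
    rw [hb, e1]
    exact mul_le_mul (mul_le_mul hwA hwB hw.le (hw.le.trans hwA)) hwC hw.le
      (mul_nonneg (hw.le.trans hwA) (hw.le.trans hwB))

/-- The sum over `n` is at most the sum over all pairs. -/
lemma pair_sum_le (hs : Split m f f') {w : ℝ} (hw : 0 ≤ w) (J : ℕ) :
    ∑ n ∈ Finset.range (m J), pw w m g f f' J (f n) (f' n) ≤
      ∑ a ∈ (Finset.range (m J)).image f, ∑ b ∈ (Finset.range (m J)).image f',
        pw w m g f f' J a b := by
  classical
  rw [← Finset.sum_product']
  have hinj : Set.InjOn (fun n => (f n, f' n)) ((Finset.range (m J) : Finset ℕ) : Set ℕ) := by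
    intro n _ n' _ hnn
    simp only [Prod.mk.injEq] at hnn
    have h1 := hs.add n
    have h2 := hs.add n'
    omega
  rw [← Finset.sum_image (f := fun p : ℕ × ℕ => pw w m g f f' J p.1 p.2) hinj]
  refine Finset.sum_le_sum_of_subset_of_nonneg ?_ fun p _ _ => pw_nonneg hw _ _ _ _ _ _ _
  intro p hp
  rw [Finset.mem_image] at hp
  obtain ⟨n, hn, rfl⟩ := hp
  rw [Finset.mem_product]
  exact ⟨Finset.mem_image_of_mem _ hn, Finset.mem_image_of_mem _ hn⟩

open Classical in
/-- total weight of a class -/
noncomputable def rr (w : ℝ) (m g f : ℕ → ℕ) (J : ℕ) (G : Fin J → Finset ℕ) : ℝ :=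
  ∑ a ∈ ((Finset.range (m J)).image f).filter (fun a => TS m g f J a = G), wt w m G a

lemma group (w : ℝ) (J : ℕ) :
    ∑ a ∈ (Finset.range (m J)).image f, ∑ b ∈ (Finset.range (m J)).image f',
        pw w m g f f' J a b =
      ∑ G ∈ seqs g J, ∑ H ∈ seqs g J, (∏ j : Fin J, rho w (g j) (G j) (H j)) *
        (rr w m g f J G * rr w m g f' J H) := by
  classical
  rw [← Finset.sum_fiberwise_of_maps_to (g := fun a => TS m g f J a)
    (fun a _ => TS_mem m g f J a)]
  refine Finset.sum_congr rfl fun G _ => ?_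
  have h1 : ∀ a, ∑ b ∈ (Finset.range (m J)).image f', pw w m g f f' J a b =
      ∑ H ∈ seqs g J, ∑ b ∈ ((Finset.range (m J)).image f').filter
        (fun b => TS m g f' J b = H), pw w m g f f' J a b := fun a =>
    (Finset.sum_fiberwise_of_maps_to (g := fun b => TS m g f' J b)
      (fun b _ => TS_mem m g f' J b) _).symm
  simp_rw [h1]
  rw [Finset.sum_comm]
  refine Finset.sum_congr rfl fun H _ => ?_
  unfold rr
  rw [Finset.sum_mul_sum, Finset.mul_sum]
  refine Finset.sum_congr (by congr) fun a ha => ?_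
  rw [Finset.mul_sum]
  refine Finset.sum_congr (by congr) fun b hb => ?_
  rw [Finset.mem_filter] at ha hb
  unfold pw
  rw [ha.2, hb.2]
  ring

end Pool.Agent.Helper72.PW
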